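import Mathlib

set_option autoImplicit false

namespace Pool.Agent.Helper45

open Filter Topology

theorem inv_convex_aux {a b s t : ℝ} (ha : 0 ≤ a) (hb : 0 ≤ b) (hab : a + b = 1)
    (hs : 0 < s) (ht : 0 < t) : (a * s + b * t)⁻¹ ≤ a * s⁻¹ + b * t⁻¹ := by
  have hpos : 0 < a * s + b * t := by
    rcases ha.eq_or_lt with h | h
    · have : b = 1 := by linarith
      subst this; subst h; linarith
    · have : 0 ≤ b * t := mul_nonneg hb ht.le
      have : 0 < a * s := mul_pos h hs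
      linarith
  rw [inv_le_iff_one_le_mul₀ hpos]
  have h1 : (a * s⁻¹ + b * t⁻¹) * (a * s + b * t)
      = a ^ 2 + b ^ 2 + a * b * (s⁻¹ * t + t⁻¹ * s) := by
    field_simp
    ring
  have h2 : 2 ≤ s⁻¹ * t + t⁻¹ * s := by
    have h3 : s⁻¹ * t + t⁻¹ * s - 2 = (s⁻¹ * t⁻¹) * (s - t) ^ 2 := by
      field_simp
      ring
    have : 0 ≤ (s⁻¹ * t⁻¹) * (s - t) ^ 2 := by positivity
    linarith
  rw [h1]
  have h4 : a * b * 2 ≤ a * b * (s⁻¹ * t + t⁻¹ * s) :=
    mul_le_mul_of_nonneg_left h2 (mul_nonneg ha hb)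
  nlinarith [hab]

/-- A finite minimax lemma, proved by separation of convex sets. -/
theorem exists_weights {ι X Y : Type*} [Fintype ι] [Fintype X] [Fintype Y]
    (u : X → ι → ℝ) (v : Y → ι → ℝ) (hu : ∀ x n, 0 ≤ u x n) (hv : ∀ y n, 0 ≤ v y n)
    (K K' : ℝ) (hK : 0 ≤ K) (hKK : K < K')
    (hyp : ∀ (a : X → ℝ) (b : Y → ℝ), (∀ x, 0 ≤ a x) → (∀ y, 0 ≤ b y) →
      ∑ n, Real.sqrt (∑ x, a x * u x n) * Real.sqrt (∑ y, b y * v y n)
        ≤ K * (Real.sqrt (∑ x, a x) * Real.sqrt (∑ y, b y))) :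
    ∃ t : ι → ℝ, (∀ n, 0 < t n) ∧ (∀ x, ∑ n, t n * u x n < K') ∧
      (∀ y, ∑ n, (t n)⁻¹ * v y n < K') := by
  classical
  -- the open convex set of strictly feasible levels
  let D : Set (X ⊕ Y → ℝ) := {w | ∃ t : ι → ℝ, (∀ n, 0 < t n) ∧
    (∀ x, ∑ n, t n * u x n < w (Sum.inl x)) ∧ (∀ y, ∑ n, (t n)⁻¹ * v y n < w (Sum.inr y))}
  have hDopen : IsOpen D := by
    have : D = ⋃ t : {t : ι → ℝ // ∀ n, 0 < t n},
        ((⋂ x, {w : X ⊕ Y → ℝ | ∑ n, t.1 n * u x n < w (Sum.inl x)}) ∩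
          (⋂ y, {w : X ⊕ Y → ℝ | ∑ n, (t.1 n)⁻¹ * v y n < w (Sum.inr y)})) := by
      ext w
      simp only [D, Set.mem_ofPred_eq, Set.mem_iUnion, Set.mem_inter_iff, Set.mem_iInter,
        Subtype.exists, exists_prop]
    rw [this]
    refine isOpen_iUnion (fun t => IsOpen.inter ?_ ?_)
    · exact isOpen_iInter_of_finite (fun x => isOpen_lt continuous_const (continuous_apply _))
    · exact isOpen_iInter_of_finite (fun x => isOpen_lt continuous_const (continuous_apply _))
  have hDconv : Convex ℝ D := by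
    rintro w ⟨t, ht, h1, h2⟩ w' ⟨t', ht', h1', h2'⟩ a b ha hb hab
    have hpos : ∀ n, 0 < a * t n + b * t' n := by
      intro n
      rcases ha.eq_or_lt with h | h
      · have : b = 1 := by linarith
        subst this; subst h; simpa using ht' n
      · have := mul_nonneg hb (ht' n).le
        have := mul_pos h (ht n)
        linarith
    -- strict inequality combination
    have hcomb : ∀ p q r s : ℝ, p < q → r < s → a * p + b * r < a * q + b * s := by
      intro p q r s hpq hrs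
      rcases ha.eq_or_lt with h | h
      · have : b = 1 := by linarith
        subst this; subst h; linarith
      · have := mul_lt_mul_of_pos_left hpq h
        have := mul_le_mul_of_nonneg_left hrs.le hb
        linarith
    refine ⟨fun n => a * t n + b * t' n, hpos, fun x => ?_, fun y => ?_⟩
    · have h3 := hcomb _ _ _ _ (h1 x) (h1' x)
      have h4 : ∑ n, (a * t n + b * t' n) * u x n
          = a * ∑ n, t n * u x n + b * ∑ n, t' n * u x n := by
        rw [Finset.mul_sum, Finset.mul_sum, ← Finset.sum_add_distrib]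
        exact Finset.sum_congr rfl (fun n _ => by ring)
      simp only [Pi.add_apply, Pi.smul_apply, smul_eq_mul]
      rw [h4]
      exact h3
    · have h3 := hcomb _ _ _ _ (h2 y) (h2' y)
      have h4 : ∑ n, (a * t n + b * t' n)⁻¹ * v y n
          ≤ a * ∑ n, (t n)⁻¹ * v y n + b * ∑ n, (t' n)⁻¹ * v y n := by
        rw [Finset.mul_sum, Finset.mul_sum, ← Finset.sum_add_distrib]
        refine Finset.sum_le_sum (fun n _ => ?_)
        have := mul_le_mul_of_nonneg_right (inv_convex_aux ha hb hab (ht n) (ht' n)) (hv y n)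
        linarith
      simp only [Pi.add_apply, Pi.smul_apply, smul_eq_mul]
      exact lt_of_le_of_lt h4 h3
  by_contra hcon
  have hnot : (fun _ => K' : X ⊕ Y → ℝ) ∉ D := by
    rintro ⟨t, h1, h2, h3⟩
    exact hcon ⟨t, h1, h2, h3⟩
  obtain ⟨f, hf⟩ := geometric_hahn_banach_open_point hDconv hDopen hnot
  -- coordinates of `f`
  have hfsum : ∀ w : X ⊕ Y → ℝ, f w = ∑ i, w i * f (Pi.single i 1) := by
    intro w
    have h := LinearMap.pi_apply_eq_sum_univ (f : (X ⊕ Y → ℝ) →ₗ[ℝ] ℝ) w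
    simp only [ContinuousLinearMap.coe_coe, smul_eq_mul] at h
    rw [h]
    refine Finset.sum_congr rfl (fun i _ => ?_)
    congr 2
    funext j
    by_cases hij : i = j
    · subst hij; simp
    · simp [hij, Ne.symm hij]
  let c : X ⊕ Y → ℝ := fun i => - f (Pi.single i 1)
  have hfc : ∀ w : X ⊕ Y → ℝ, f w = - ∑ i, c i * w i := by
    intro w
    rw [hfsum, ← Finset.sum_neg_distrib]
    exact Finset.sum_congr rfl (fun i _ => by simp only [c]; ring)
  -- a family of points of `D`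
  have hmem : ∀ t : ι → ℝ, (∀ n, 0 < t n) → ∀ w : X ⊕ Y → ℝ,
      (∀ x, ∑ n, t n * u x n < w (Sum.inl x)) → (∀ y, ∑ n, (t n)⁻¹ * v y n < w (Sum.inr y)) →
      K' * ∑ i, c i < ∑ i, c i * w i := by
    intro t ht w h1 h2
    have h3 := hf w ⟨t, ht, h1, h2⟩
    rw [hfc, hfc] at h3
    have h4 : ∑ i, c i * K' = K' * ∑ i, c i := by
      rw [Finset.mul_sum]
      exact Finset.sum_congr rfl (fun i _ => by ring)
    linarith
  -- nonnegativity of `c`
  have hc0 : ∀ i, 0 ≤ c i := by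
    intro i
    by_contra hneg
    push Not at hneg
    let w : X ⊕ Y → ℝ := Sum.elim (fun x => ∑ n, 1 * u x n + 1) (fun y => ∑ n, (1 : ℝ)⁻¹ * v y n + 1)
    -- choose a huge multiple of the `i`th unit vector
    set s : ℝ := max 0 ((K' * ∑ i, c i - ∑ j, c j * w j) / c i) with hs
    have hs0 : 0 ≤ s := le_max_left _ _
    have hs1 : (K' * ∑ i, c i - ∑ j, c j * w j) / c i ≤ s := le_max_right _ _
    have h1 := hmem (fun _ => 1) (fun _ => one_pos) (w + Pi.single i s) (fun x => by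
        have : 0 ≤ (Pi.single i s : X ⊕ Y → ℝ) (Sum.inl x) := by
          rw [Pi.single_apply]; split_ifs <;> simp [hs0]
        simp only [Pi.add_apply, w, Sum.elim_inl]
        linarith) (fun y => by
        have : 0 ≤ (Pi.single i s : X ⊕ Y → ℝ) (Sum.inr y) := by
          rw [Pi.single_apply]; split_ifs <;> simp [hs0]
        simp only [Pi.add_apply, w, Sum.elim_inr]
        linarith)
    have h2 : ∑ j, c j * (w + Pi.single i s : X ⊕ Y → ℝ) j = ∑ j, c j * w j + c i * s := by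
      simp only [Pi.add_apply, mul_add, Finset.sum_add_distrib]
      congr 1
      rw [Finset.sum_eq_single i]
      · simp
      · intro j _ hj; simp [hj]
      · simp
    rw [h2] at h1
    rw [div_le_iff_of_neg hneg] at hs1
    linarith
  -- the limiting inequality
  have hlim : ∀ t : ι → ℝ, (∀ n, 0 < t n) →
      K' * ∑ i, c i ≤ ∑ x, c (Sum.inl x) * (∑ n, t n * u x n)
        + ∑ y, c (Sum.inr y) * (∑ n, (t n)⁻¹ * v y n) := by
    intro t ht
    have h1 : ∀ ε : ℝ, 0 < ε → K' * ∑ i, c i ≤ (∑ x, c (Sum.inl x) * (∑ n, t n * u x n)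
        + ∑ y, c (Sum.inr y) * (∑ n, (t n)⁻¹ * v y n)) + ε * ∑ i, c i := by
      intro ε hε
      have h2 := (hmem t ht (Sum.elim (fun x => ∑ n, t n * u x n + ε)
        (fun y => ∑ n, (t n)⁻¹ * v y n + ε)) (fun x => by simp [hε]) (fun y => by simp [hε])).le
      refine h2.trans (le_of_eq ?_)
      simp only [Fintype.sum_sum_type, Sum.elim_inl, Sum.elim_inr, mul_add, Finset.sum_add_distrib,
        ← Finset.sum_mul]
      ring
    have h3 : Tendsto (fun ε : ℝ => (∑ x, c (Sum.inl x) * (∑ n, t n * u x n)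
        + ∑ y, c (Sum.inr y) * (∑ n, (t n)⁻¹ * v y n)) + ε * ∑ i, c i) (𝓝[>] 0)
        (𝓝 ((∑ x, c (Sum.inl x) * (∑ n, t n * u x n)
        + ∑ y, c (Sum.inr y) * (∑ n, (t n)⁻¹ * v y n)) + 0 * ∑ i, c i)) := by
      apply tendsto_nhdsWithin_of_tendsto_nhds
      apply Continuous.tendsto
      fun_prop
    rw [zero_mul, add_zero] at h3
    exact ge_of_tendsto h3 (eventually_nhdsWithin_of_forall (fun ε hε => h1 ε hε))
  let A : ι → ℝ := fun n => ∑ x, c (Sum.inl x) * u x n
  let B : ι → ℝ := fun n => ∑ y, c (Sum.inr y) * v y n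
  have hA : ∀ n, 0 ≤ A n := fun n => Finset.sum_nonneg (fun x _ => mul_nonneg (hc0 _) (hu x n))
  have hB : ∀ n, 0 ≤ B n := fun n => Finset.sum_nonneg (fun y _ => mul_nonneg (hc0 _) (hv y n))
  have hlim2 : ∀ t : ι → ℝ, (∀ n, 0 < t n) →
      K' * ∑ i, c i ≤ ∑ n, (t n * A n + (t n)⁻¹ * B n) := by
    intro t ht
    refine (hlim t ht).trans (le_of_eq ?_)
    rw [Finset.sum_add_distrib]
    congr 1
    · simp only [A, Finset.mul_sum]
      rw [Finset.sum_comm]
      exact Finset.sum_congr rfl (fun n _ => Finset.sum_congr rfl (fun x _ => by ring))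
    · simp only [B, Finset.mul_sum]
      rw [Finset.sum_comm]
      exact Finset.sum_congr rfl (fun n _ => Finset.sum_congr rfl (fun x _ => by ring))
  have hlim3 : ∀ ε : ℝ, 0 < ε →
      K' * ∑ i, c i ≤ ∑ n, 2 * (Real.sqrt (A n + ε) * Real.sqrt (B n + ε)) := by
    intro ε hε
    have hAp : ∀ n, 0 < Real.sqrt (A n + ε) := fun n => Real.sqrt_pos.2 (by linarith [hA n])
    have hBp : ∀ n, 0 < Real.sqrt (B n + ε) := fun n => Real.sqrt_pos.2 (by linarith [hB n])
    refine (hlim2 (fun n => Real.sqrt (B n + ε) / Real.sqrt (A n + ε))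
      (fun n => div_pos (hBp n) (hAp n))).trans ?_
    refine Finset.sum_le_sum (fun n _ => ?_)
    have h1 : Real.sqrt (B n + ε) / Real.sqrt (A n + ε) * A n
        ≤ Real.sqrt (A n + ε) * Real.sqrt (B n + ε) := by
      have h2 : A n ≤ Real.sqrt (A n + ε) ^ 2 := by
        rw [Real.sq_sqrt (by linarith [hA n])]; linarith
      calc Real.sqrt (B n + ε) / Real.sqrt (A n + ε) * A n
          ≤ Real.sqrt (B n + ε) / Real.sqrt (A n + ε) * Real.sqrt (A n + ε) ^ 2 :=
            mul_le_mul_of_nonneg_left h2 (div_pos (hBp n) (hAp n)).le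
        _ = _ := by
            have := (hAp n).ne'
            field_simp
    have h1' : (Real.sqrt (B n + ε) / Real.sqrt (A n + ε))⁻¹ * B n
        ≤ Real.sqrt (A n + ε) * Real.sqrt (B n + ε) := by
      have h2 : B n ≤ Real.sqrt (B n + ε) ^ 2 := by
        rw [Real.sq_sqrt (by linarith [hB n])]; linarith
      calc (Real.sqrt (B n + ε) / Real.sqrt (A n + ε))⁻¹ * B n
          ≤ (Real.sqrt (B n + ε) / Real.sqrt (A n + ε))⁻¹ * Real.sqrt (B n + ε) ^ 2 :=
            mul_le_mul_of_nonneg_left h2 (inv_pos.2 (div_pos (hBp n) (hAp n))).le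
        _ = _ := by
            have := (hAp n).ne'
            have := (hBp n).ne'
            field_simp
    linarith
  have hlim4 : K' * ∑ i, c i ≤ ∑ n, 2 * (Real.sqrt (A n) * Real.sqrt (B n)) := by
    have h3 : Tendsto (fun ε : ℝ => ∑ n, 2 * (Real.sqrt (A n + ε) * Real.sqrt (B n + ε))) (𝓝[>] 0)
        (𝓝 (∑ n, 2 * (Real.sqrt (A n + 0) * Real.sqrt (B n + 0)))) := by
      apply tendsto_nhdsWithin_of_tendsto_nhds
      apply Continuous.tendsto
      fun_prop
    simp only [add_zero] at h3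
    exact ge_of_tendsto h3 (eventually_nhdsWithin_of_forall (fun ε hε => hlim3 ε hε))
  have h5 := hyp (fun x => c (Sum.inl x)) (fun y => c (Sum.inr y)) (fun x => hc0 _) (fun y => hc0 _)
  have hs : ∑ i, c i = ∑ x, c (Sum.inl x) + ∑ y, c (Sum.inr y) := Fintype.sum_sum_type _
  have ha0 : 0 ≤ ∑ x, c (Sum.inl x) := Finset.sum_nonneg (fun x _ => hc0 _)
  have hb0 : 0 ≤ ∑ y, c (Sum.inr y) := Finset.sum_nonneg (fun x _ => hc0 _)
  have h6 : 2 * (Real.sqrt (∑ x, c (Sum.inl x)) * Real.sqrt (∑ y, c (Sum.inr y)))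
      ≤ ∑ i, c i := by
    rw [hs]
    nlinarith [sq_nonneg (Real.sqrt (∑ x, c (Sum.inl x)) - Real.sqrt (∑ y, c (Sum.inr y))),
      Real.sq_sqrt ha0, Real.sq_sqrt hb0]
  have h7 : K' * ∑ i, c i ≤ K * ∑ i, c i := by
    rw [← Finset.mul_sum] at hlim4
    have h8 := mul_le_mul_of_nonneg_left h6 hK
    nlinarith [hlim4, h5, h8]
  have hsum0 : 0 ≤ ∑ i, c i := Finset.sum_nonneg (fun i _ => hc0 i)
  rcases hsum0.eq_or_lt with h0 | hpos
  · -- then `c = 0`, contradiction with the strict separation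
    have hcz : ∀ i, c i = 0 := by
      intro i
      exact (Finset.sum_eq_zero_iff_of_nonneg (fun i _ => hc0 i)).1 h0.symm i (Finset.mem_univ i)
    have h9 := hmem (fun _ => 1) (fun _ => one_pos)
      (Sum.elim (fun x => ∑ n, 1 * u x n + 1) (fun y => ∑ n, (1 : ℝ)⁻¹ * v y n + 1))
      (fun x => by simp) (fun y => by simp)
    simp only [hcz, Finset.sum_const_zero, mul_zero, zero_mul] at h9
    exact lt_irrefl _ h9
  · exact absurd h7 (not_le.2 (mul_lt_mul_of_pos_right hKK hpos))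

end Pool.Agent.Helper45
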