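import Mathlib

set_option autoImplicit false
open scoped InnerProductSpace

namespace Pool.Agent.Helper45

/-- Rademacher average of `h` over the signed sums of the vectors of a list. -/
noncomputable def ravg {V : Type*} [AddCommGroup V] : List V → (V → ℝ) → ℝ
  | [], h => h 0
  | (z :: l), h => ravg l (fun s => (h (s + z) + h (s - z)) / 2)

section basic

variable {V W : Type*} [AddCommGroup V] [AddCommGroup W]

theorem ravg_mono (l : List V) {h k : V → ℝ} (hk : ∀ v, h v ≤ k v) :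
    ravg l h ≤ ravg l k := by
  induction l generalizing h k with
  | nil => exact hk 0
  | cons z l ih =>
    simp only [ravg]
    exact ih (fun v => by linarith [hk (v + z), hk (v - z)])

theorem ravg_add (l : List V) (h k : V → ℝ) :
    ravg l (fun v => h v + k v) = ravg l h + ravg l k := by
  induction l generalizing h k with
  | nil => rfl
  | cons z l ih =>
    simp only [ravg]
    rw [← ih]
    congr 1
    funext v
    ring

theorem ravg_const_mul (l : List V) (c : ℝ) (h : V → ℝ) :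
    ravg l (fun v => c * h v) = c * ravg l h := by
  induction l generalizing h with
  | nil => rfl
  | cons z l ih =>
    simp only [ravg]
    rw [← ih]
    congr 1
    funext v
    ring

theorem ravg_const (l : List V) (c : ℝ) : ravg l (fun _ => c) = c := by
  induction l with
  | nil => rfl
  | cons z l ih =>
    simp only [ravg]
    rw [show (c + c) / 2 = c by ring]
    exact ih

theorem ravg_sum {ι : Type*} (l : List V) (s : Finset ι) (h : ι → V → ℝ) :
    ravg l (fun v => ∑ i ∈ s, h i v) = ∑ i ∈ s, ravg l (h i) := by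
  classical
  induction s using Finset.induction_on with
  | empty => simpa using ravg_const l 0
  | insert a s ha ih =>
    simp only [Finset.sum_insert ha]
    rw [ravg_add, ih]

theorem ravg_map (T : V →+ W) (l : List V) (h : W → ℝ) :
    ravg (l.map T) h = ravg l (fun v => h (T v)) := by
  induction l generalizing h with
  | nil => simp [ravg]
  | cons z l ih =>
    simp only [List.map_cons, ravg]
    rw [ih]
    congr 1
    funext v
    simp [map_add, map_sub]

end basic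

section norm

variable {V : Type*} [NormedAddCommGroup V] [InnerProductSpace ℂ V]

/-- second moment -/
theorem ravg_sq (l : List V) :
    ravg l (fun v => ‖v‖ ^ 2) = (l.map (fun v => ‖v‖ ^ 2)).sum := by
  induction l with
  | nil => simp [ravg]
  | cons z l ih =>
    simp only [ravg, List.map_cons, List.sum_cons]
    have : (fun s : V => (‖s + z‖ ^ 2 + ‖s - z‖ ^ 2) / 2) = fun s => ‖s‖ ^ 2 + ‖z‖ ^ 2 := by
      funext s
      have := parallelogram_law_with_norm ℂ s z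
      nlinarith [this]
    rw [this, ravg_add, ravg_const, ih, add_comm]

theorem fourth_aux (s z : ℂ) :
    (‖s + z‖ ^ 4 + ‖s - z‖ ^ 4) / 2 ≤ ‖s‖ ^ 4 + 6 * ‖z‖ ^ 2 * ‖s‖ ^ 2 + ‖z‖ ^ 4 := by
  have hp : ‖s + z‖ ^ 2 = ‖s‖ ^ 2 + ‖z‖ ^ 2 + 2 * (s.re * z.re + s.im * z.im) := by
    rw [← Complex.normSq_eq_norm_sq, ← Complex.normSq_eq_norm_sq, ← Complex.normSq_eq_norm_sq]
    simp only [Complex.normSq_apply, Complex.add_re, Complex.add_im]
    ring
  have hq : ‖s - z‖ ^ 2 = ‖s‖ ^ 2 + ‖z‖ ^ 2 - 2 * (s.re * z.re + s.im * z.im) := by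
    rw [← Complex.normSq_eq_norm_sq, ← Complex.normSq_eq_norm_sq, ← Complex.normSq_eq_norm_sq]
    simp only [Complex.normSq_apply, Complex.sub_re, Complex.sub_im]
    ring
  have hc : (s.re * z.re + s.im * z.im) ^ 2 ≤ ‖s‖ ^ 2 * ‖z‖ ^ 2 := by
    rw [← Complex.normSq_eq_norm_sq, ← Complex.normSq_eq_norm_sq]
    simp only [Complex.normSq_apply]
    nlinarith [sq_nonneg (s.re * z.im - s.im * z.re)]
  have h4p : ‖s + z‖ ^ 4 = (‖s + z‖ ^ 2) ^ 2 := by ring
  have h4q : ‖s - z‖ ^ 4 = (‖s - z‖ ^ 2) ^ 2 := by ring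
  rw [h4p, h4q, hp, hq]
  nlinarith [hc]

/-- fourth moment bound for complex numbers -/
theorem ravg_fourth (l : List ℂ) :
    ravg l (fun v => ‖v‖ ^ 4) ≤ 3 * ((l.map (fun v => ‖v‖ ^ 2)).sum) ^ 2 := by
  induction l with
  | nil => simp [ravg]
  | cons z l ih =>
    simp only [ravg, List.map_cons, List.sum_cons]
    have h1 : ravg l (fun s : ℂ => (‖s + z‖ ^ 4 + ‖s - z‖ ^ 4) / 2) ≤
        ravg l (fun s : ℂ => ‖s‖ ^ 4 + (6 * ‖z‖ ^ 2 * ‖s‖ ^ 2 + ‖z‖ ^ 4)) :=
      ravg_mono l (fun s => by linarith [fourth_aux s z])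
    rw [ravg_add, ravg_add, ravg_const_mul, ravg_const, ravg_sq] at h1
    set S := (l.map (fun v : ℂ => ‖v‖ ^ 2)).sum with hS
    nlinarith [h1, ih, sq_nonneg (‖z‖ ^ 2), sq_nonneg (‖z‖)]

/-- elementary Khintchine inequality with constant `5/9` -/
theorem ravg_norm_lower (l : List ℂ) :
    (5 / 9 : ℝ) * Real.sqrt ((l.map (fun v => ‖v‖ ^ 2)).sum) ≤ ravg l (fun v => ‖v‖) := by
  set S := (l.map (fun v : ℂ => ‖v‖ ^ 2)).sum with hS
  have hS0 : 0 ≤ S := by
    apply List.sum_nonneg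
    intro x hx
    obtain ⟨v, -, rfl⟩ := List.mem_map.1 hx
    positivity
  rcases hS0.eq_or_lt with h0 | hpos
  · rw [← h0, Real.sqrt_zero, mul_zero]
    calc (0 : ℝ) = ravg l (fun _ : ℂ => (0 : ℝ)) := (ravg_const l 0).symm
      _ ≤ _ := ravg_mono l (fun v => norm_nonneg v)
  · set σ := Real.sqrt S with hσ
    have hσpos : 0 < σ := Real.sqrt_pos.2 hpos
    have hσ2 : σ ^ 2 = S := Real.sq_sqrt hS0
    have hpt : ∀ v : ℂ, σ⁻¹ * ‖v‖ ^ 2 + (-(4 / 27) * (σ⁻¹) ^ 3) * ‖v‖ ^ 4 ≤ ‖v‖ := by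
      intro v
      have ht : (σ⁻¹ * ‖v‖) ^ 2 - (4 / 27) * (σ⁻¹ * ‖v‖) ^ 4 ≤ σ⁻¹ * ‖v‖ := by
        set t := σ⁻¹ * ‖v‖ with ht
        have ht0 : 0 ≤ t := by positivity
        have : t - t ^ 2 + (4 / 27) * t ^ 4 = t * ((1 - 2 / 3 * t) ^ 2 * (1 + t / 3)) := by ring
        have h2 : 0 ≤ t * ((1 - 2 / 3 * t) ^ 2 * (1 + t / 3)) := by positivity
        linarith
      have h3 := mul_le_mul_of_nonneg_left ht hσpos.le
      have h4 : σ * ((σ⁻¹ * ‖v‖) ^ 2 - (4 / 27) * (σ⁻¹ * ‖v‖) ^ 4) =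
          σ⁻¹ * ‖v‖ ^ 2 + (-(4 / 27) * (σ⁻¹) ^ 3) * ‖v‖ ^ 4 := by
        field_simp
        ring
      have h5 : σ * (σ⁻¹ * ‖v‖) = ‖v‖ := by
        field_simp
      rw [h4, h5] at h3
      exact h3
    have h1 := ravg_mono l hpt
    rw [ravg_add, ravg_const_mul, ravg_const_mul, ravg_sq] at h1
    have h2 := ravg_fourth l
    rw [← hS] at h1 h2
    have h3 : (σ⁻¹) ^ 3 * ravg l (fun v => ‖v‖ ^ 4) ≤ (σ⁻¹) ^ 3 * (3 * S ^ 2) :=
      mul_le_mul_of_nonneg_left h2 (by positivity)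
    have h4 : (σ⁻¹) ^ 3 * (3 * S ^ 2) = 3 * σ := by
      rw [← hσ2]; field_simp
    have h5 : σ⁻¹ * S = σ := by
      rw [← hσ2]; field_simp
    rw [h4] at h3
    rw [h5] at h1
    nlinarith [h1, h3]

/-- upper bound of the first moment -/
theorem ravg_norm_upper (l : List V) :
    ravg l (fun v => ‖v‖) ≤ Real.sqrt ((l.map (fun v => ‖v‖ ^ 2)).sum) := by
  set S := (l.map (fun v : V => ‖v‖ ^ 2)).sum with hS
  have hS0 : 0 ≤ S := by
    apply List.sum_nonneg
    intro x hx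
    obtain ⟨v, -, rfl⟩ := List.mem_map.1 hx
    positivity
  -- for every `ε > 0`, `‖v‖ ≤ (‖v‖^2 / ε + ε) / 2`
  have key : ∀ ε : ℝ, 0 < ε → ravg l (fun v => ‖v‖) ≤ ε⁻¹ / 2 * S + ε / 2 := by
    intro ε hε
    have hpt : ∀ v : V, ‖v‖ ≤ ε⁻¹ / 2 * ‖v‖ ^ 2 + ε / 2 := by
      intro v
      have h0 : 0 ≤ (ε⁻¹ / 2) * (‖v‖ - ε) ^ 2 := by positivity
      have h1 : (ε⁻¹ / 2) * (‖v‖ - ε) ^ 2 = ε⁻¹ / 2 * ‖v‖ ^ 2 + ε / 2 - ‖v‖ := by
        field_simp
        ring
      linarith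
    have h1 := ravg_mono l hpt
    rwa [ravg_add, ravg_const_mul, ravg_const, ravg_sq] at h1
  rcases hS0.eq_or_lt with h0 | hpos
  · rw [← h0, Real.sqrt_zero]
    apply le_of_forall_pos_le_add
    intro ε hε
    have := key ε hε
    rw [← h0] at this
    linarith
  · have hσpos : 0 < Real.sqrt S := Real.sqrt_pos.2 hpos
    have h1 := key _ hσpos
    have h2 : (Real.sqrt S)⁻¹ / 2 * S + Real.sqrt S / 2 = Real.sqrt S := by
      have : (Real.sqrt S)⁻¹ * S = Real.sqrt S := by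
        conv_lhs => rw [← Real.sq_sqrt hS0]
        field_simp
        rw [Real.sqrt_sq hσpos.le]
      linarith
    linarith

end norm

end Pool.Agent.Helper45
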