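import Mathlib
import Pool.Agent.Helper45.Rademacher

set_option autoImplicit false
open scoped InnerProductSpace

namespace Pool.Agent.Helper45

variable {H : Type*} [NormedAddCommGroup H] [InnerProductSpace ℂ H]

theorem list_map_inner_eq (x : H) (L : List H) :
    (L.map (fun g => ‖⟪x, g⟫_ℂ‖ ^ 2)).sum
      = ((L.map (innerSL ℂ x : H →+ ℂ)).map (fun v => ‖v‖ ^ 2)).sum := by
  rw [List.map_map]
  rfl

theorem lower_inner (x : H) (L : List H) :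
    (5 / 9 : ℝ) * Real.sqrt ((L.map (fun g => ‖⟪x, g⟫_ℂ‖ ^ 2)).sum)
      ≤ ravg L (fun g => ‖⟪x, g⟫_ℂ‖) := by
  rw [list_map_inner_eq]
  refine (ravg_norm_lower _).trans ?_
  rw [ravg_map]
  exact le_of_eq rfl

/-- The Hilbert-Schmidt upgrade of a rank one estimate. -/
theorem hs_bound {ι : Type*} (φ ψ : ι → H) (F : Finset ι) (C : ℝ) (hC : 0 ≤ C)
    (hyp : ∀ f g : H, ∑ n ∈ F, ‖⟪ψ n, f⟫_ℂ‖ * ‖⟪φ n, g⟫_ℂ‖ ≤ C * ‖f‖ * ‖g‖) (L M : List H) :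
    ∑ n ∈ F, Real.sqrt ((L.map (fun f => ‖⟪ψ n, f⟫_ℂ‖ ^ 2)).sum)
        * Real.sqrt ((M.map (fun g => ‖⟪φ n, g⟫_ℂ‖ ^ 2)).sum)
      ≤ (81 / 25) * C * (Real.sqrt ((L.map (fun f => ‖f‖ ^ 2)).sum)
        * Real.sqrt ((M.map (fun g => ‖g‖ ^ 2)).sum)) := by
  have h1 : ∀ n ∈ F, (5 / 9 : ℝ) * Real.sqrt ((L.map (fun f => ‖⟪ψ n, f⟫_ℂ‖ ^ 2)).sum)
        * ((5 / 9 : ℝ) * Real.sqrt ((M.map (fun g => ‖⟪φ n, g⟫_ℂ‖ ^ 2)).sum))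
      ≤ ravg L (fun f => ‖⟪ψ n, f⟫_ℂ‖) * ravg M (fun g => ‖⟪φ n, g⟫_ℂ‖) := by
    intro n _
    have hl := lower_inner (ψ n) L
    have hm := lower_inner (φ n) M
    exact mul_le_mul hl hm (by positivity) (le_trans (by positivity) hl)
  have h2 : ∑ n ∈ F, ravg L (fun f => ‖⟪ψ n, f⟫_ℂ‖) * ravg M (fun g => ‖⟪φ n, g⟫_ℂ‖)
      = ravg L (fun f => ravg M (fun g => ∑ n ∈ F, ‖⟪ψ n, f⟫_ℂ‖ * ‖⟪φ n, g⟫_ℂ‖)) := by
    have : ∀ f : H, ravg M (fun g => ∑ n ∈ F, ‖⟪ψ n, f⟫_ℂ‖ * ‖⟪φ n, g⟫_ℂ‖)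
        = ∑ n ∈ F, ravg M (fun g => ‖⟪φ n, g⟫_ℂ‖) * ‖⟪ψ n, f⟫_ℂ‖ := by
      intro f
      rw [ravg_sum]
      refine Finset.sum_congr rfl (fun n _ => ?_)
      rw [ravg_const_mul, mul_comm]
    simp only [this]
    rw [ravg_sum]
    refine Finset.sum_congr rfl (fun n _ => ?_)
    rw [ravg_const_mul, mul_comm]
  have h3 : ravg L (fun f => ravg M (fun g => ∑ n ∈ F, ‖⟪ψ n, f⟫_ℂ‖ * ‖⟪φ n, g⟫_ℂ‖))
      ≤ C * (ravg M (fun g => ‖g‖) * ravg L (fun f => ‖f‖)) := by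
    have h31 : ∀ f : H, ravg M (fun g => ∑ n ∈ F, ‖⟪ψ n, f⟫_ℂ‖ * ‖⟪φ n, g⟫_ℂ‖)
        ≤ (C * ravg M (fun g => ‖g‖)) * ‖f‖ := by
      intro f
      refine (ravg_mono M (hyp f)).trans (le_of_eq ?_)
      rw [ravg_const_mul]
      ring
    refine (ravg_mono L h31).trans (le_of_eq ?_)
    rw [ravg_const_mul]
    ring
  have h4 : ravg M (fun g => ‖g‖) * ravg L (fun f => ‖f‖)
      ≤ Real.sqrt ((L.map (fun f => ‖f‖ ^ 2)).sum) * Real.sqrt ((M.map (fun g => ‖g‖ ^ 2)).sum) := by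
    rw [mul_comm]
    refine mul_le_mul (ravg_norm_upper L) (ravg_norm_upper M) ?_ (Real.sqrt_nonneg _)
    calc (0 : ℝ) = ravg M (fun _ : H => (0 : ℝ)) := (ravg_const M 0).symm
      _ ≤ _ := ravg_mono M (fun v => norm_nonneg v)
  have h5 := Finset.sum_le_sum h1
  rw [h2] at h5
  have h6 : ∑ n ∈ F, (5 / 9 : ℝ) * Real.sqrt ((L.map (fun f => ‖⟪ψ n, f⟫_ℂ‖ ^ 2)).sum)
        * ((5 / 9 : ℝ) * Real.sqrt ((M.map (fun g => ‖⟪φ n, g⟫_ℂ‖ ^ 2)).sum))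
      = (25 / 81) * ∑ n ∈ F, Real.sqrt ((L.map (fun f => ‖⟪ψ n, f⟫_ℂ‖ ^ 2)).sum)
        * Real.sqrt ((M.map (fun g => ‖⟪φ n, g⟫_ℂ‖ ^ 2)).sum) := by
    rw [Finset.mul_sum]
    refine Finset.sum_congr rfl (fun n _ => ?_)
    ring
  rw [h6] at h5
  have h7 := h5.trans (h3.trans (mul_le_mul_of_nonneg_left h4 hC))
  linarith

end Pool.Agent.Helper45
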