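import Mathlib
import Pool.Agent.Helper45.Multiplier
import Pool.Agent.Helper45.Minimax

set_option autoImplicit false
open scoped InnerProductSpace
open Filter Topology

namespace Pool.Agent.Helper45

variable {H : Type*} [NormedAddCommGroup H] [InnerProductSpace ℂ H]

/-- normalisation of a vector (zero is sent to zero) -/
noncomputable def nrm (x : H) : H := ((‖x‖⁻¹ : ℝ) : ℂ) • x

theorem norm_nrm_le (x : H) : ‖nrm x‖ ≤ 1 := by
  unfold nrm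
  rw [norm_smul, Complex.norm_real, norm_inv, norm_norm]
  by_cases hx : ‖x‖ = 0
  · simp [hx]
  · rw [inv_mul_cancel₀ hx]

theorem inner_nrm (y x : H) : ‖x‖ ^ 2 * ‖⟪y, nrm x⟫_ℂ‖ ^ 2 = ‖⟪y, x⟫_ℂ‖ ^ 2 := by
  unfold nrm
  rw [inner_smul_right, norm_mul, Complex.norm_real, norm_inv, norm_norm]
  by_cases hx : ‖x‖ = 0
  · have : x = 0 := norm_eq_zero.1 hx
    simp [this]
  · field_simp

/-- weights for finitely many indices and finitely many test vectors -/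
theorem finite_weights {ι : Type*} (φ ψ : ι → H) (C K' : ℝ) (hC : 0 ≤ C)
    (hK : (81 / 25) * C < K')
    (hyp : ∀ (F : Finset ι) (f g : H), ∑ n ∈ F, ‖⟪ψ n, f⟫_ℂ‖ * ‖⟪φ n, g⟫_ℂ‖ ≤ C * ‖f‖ * ‖g‖)
    (F : Finset ι) (X Y : Finset H) :
    ∃ t : ι → ℝ, (∀ n, 0 < t n) ∧ (∀ g ∈ X, ∑ n ∈ F, t n * ‖⟪φ n, g⟫_ℂ‖ ^ 2 ≤ K' * ‖g‖ ^ 2) ∧
      (∀ f ∈ Y, ∑ n ∈ F, (t n)⁻¹ * ‖⟪ψ n, f⟫_ℂ‖ ^ 2 ≤ K' * ‖f‖ ^ 2) := by
  classical
  obtain ⟨t, ht, h1, h2⟩ := exists_weights (ι := F) (X := X) (Y := Y)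
    (fun x n => ‖⟪φ n, nrm (x : H)⟫_ℂ‖ ^ 2) (fun y n => ‖⟪ψ n, nrm (y : H)⟫_ℂ‖ ^ 2)
    (fun x n => by positivity) (fun y n => by positivity) ((81 / 25) * C) K' (by positivity) hK
    (by
      intro a b ha hb
      have h := hs_bound (fun n : F => φ n) (fun n : F => ψ n) Finset.univ C hC
        (fun f g => by
          have := hyp F f g
          rw [← Finset.sum_coe_sort] at this
          exact this)
        ((Finset.univ : Finset Y).toList.map (fun y => ((Real.sqrt (b y) : ℝ) : ℂ) • nrm (y : H)))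
        ((Finset.univ : Finset X).toList.map (fun x => ((Real.sqrt (a x) : ℝ) : ℂ) • nrm (x : H)))
      simp only [List.map_map] at h
      have e1 : ∀ n : F, (((Finset.univ : Finset Y).toList).map
          ((fun f => ‖⟪ψ n, f⟫_ℂ‖ ^ 2) ∘ (fun y : Y => ((Real.sqrt (b y) : ℝ) : ℂ) • nrm (y : H)))).sum
          = ∑ y, b y * ‖⟪ψ n, nrm (y : H)⟫_ℂ‖ ^ 2 := by
        intro n
        rw [Finset.sum_map_toList]
        refine Finset.sum_congr rfl (fun y _ => ?_)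
        simp only [Function.comp]
        rw [inner_smul_right, norm_mul, Complex.norm_real, mul_pow, Real.norm_eq_abs, sq_abs,
          Real.sq_sqrt (hb y)]
      have e2 : ∀ n : F, (((Finset.univ : Finset X).toList).map
          ((fun f => ‖⟪φ n, f⟫_ℂ‖ ^ 2) ∘ (fun y : X => ((Real.sqrt (a y) : ℝ) : ℂ) • nrm (y : H)))).sum
          = ∑ y, a y * ‖⟪φ n, nrm (y : H)⟫_ℂ‖ ^ 2 := by
        intro n
        rw [Finset.sum_map_toList]
        refine Finset.sum_congr rfl (fun y _ => ?_)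
        simp only [Function.comp]
        rw [inner_smul_right, norm_mul, Complex.norm_real, mul_pow, Real.norm_eq_abs, sq_abs,
          Real.sq_sqrt (ha y)]
      have e3 : (((Finset.univ : Finset Y).toList).map
          ((fun f => ‖f‖ ^ 2) ∘ (fun y : Y => ((Real.sqrt (b y) : ℝ) : ℂ) • nrm (y : H)))).sum
          ≤ ∑ y, b y := by
        rw [Finset.sum_map_toList]
        refine Finset.sum_le_sum (fun y _ => ?_)
        simp only [Function.comp]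
        rw [norm_smul, Complex.norm_real, mul_pow, Real.norm_eq_abs, sq_abs,
          Real.sq_sqrt (hb y)]
        have := norm_nrm_le (y : H)
        have h0 := norm_nonneg (nrm (y : H))
        have h1 : ‖nrm (y : H)‖ ^ 2 ≤ 1 := by nlinarith
        calc b y * ‖nrm (y : H)‖ ^ 2 ≤ b y * 1 := mul_le_mul_of_nonneg_left h1 (hb y)
          _ = b y := mul_one _
      have e4 : (((Finset.univ : Finset X).toList).map
          ((fun f => ‖f‖ ^ 2) ∘ (fun y : X => ((Real.sqrt (a y) : ℝ) : ℂ) • nrm (y : H)))).sum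
          ≤ ∑ y, a y := by
        rw [Finset.sum_map_toList]
        refine Finset.sum_le_sum (fun y _ => ?_)
        simp only [Function.comp]
        rw [norm_smul, Complex.norm_real, mul_pow, Real.norm_eq_abs, sq_abs,
          Real.sq_sqrt (ha y)]
        have := norm_nrm_le (y : H)
        have h0 := norm_nonneg (nrm (y : H))
        have h1 : ‖nrm (y : H)‖ ^ 2 ≤ 1 := by nlinarith
        calc a y * ‖nrm (y : H)‖ ^ 2 ≤ a y * 1 := mul_le_mul_of_nonneg_left h1 (ha y)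
          _ = a y := mul_one _
      simp only [e1, e2] at h
      have h3 : ∑ n : F, Real.sqrt (∑ x : X, a x * ‖⟪φ n, nrm (x : H)⟫_ℂ‖ ^ 2)
          * Real.sqrt (∑ y : Y, b y * ‖⟪ψ n, nrm (y : H)⟫_ℂ‖ ^ 2)
          = ∑ n : F, Real.sqrt (∑ y : Y, b y * ‖⟪ψ n, nrm (y : H)⟫_ℂ‖ ^ 2)
          * Real.sqrt (∑ x : X, a x * ‖⟪φ n, nrm (x : H)⟫_ℂ‖ ^ 2) :=
        Finset.sum_congr rfl (fun n _ => mul_comm _ _)
      rw [h3]
      refine h.trans ?_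
      refine mul_le_mul_of_nonneg_left ?_ (by positivity)
      rw [mul_comm (Real.sqrt (∑ x, a x))]
      exact mul_le_mul (Real.sqrt_le_sqrt e3) (Real.sqrt_le_sqrt e4) (Real.sqrt_nonneg _)
        (Real.sqrt_nonneg _))
  refine ⟨fun n => if h : n ∈ F then t ⟨n, h⟩ else 1, ?_, ?_, ?_⟩
  · intro n
    by_cases h : n ∈ F
    · simp only [h, dif_pos]; exact ht _
    · simp only [h, dif_neg, not_false_iff]; exact one_pos
  · intro g hg
    have h3 := (h1 ⟨g, hg⟩).le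
    have h4 : ∑ n ∈ F, (if h : n ∈ F then t ⟨n, h⟩ else 1) * ‖⟪φ n, g⟫_ℂ‖ ^ 2
        = ‖g‖ ^ 2 * ∑ n : F, t n * ‖⟪φ n, nrm g⟫_ℂ‖ ^ 2 := by
      rw [← Finset.sum_coe_sort, Finset.mul_sum]
      refine Finset.sum_congr rfl (fun n _ => ?_)
      simp only [n.2, dif_pos]
      rw [← inner_nrm (φ n) g]
      ring
    rw [h4, mul_comm]
    exact mul_le_mul_of_nonneg_right h3 (by positivity)
  · intro f hf
    have h3 := (h2 ⟨f, hf⟩).le
    have h4 : ∑ n ∈ F, (if h : n ∈ F then t ⟨n, h⟩ else 1)⁻¹ * ‖⟪ψ n, f⟫_ℂ‖ ^ 2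
        = ‖f‖ ^ 2 * ∑ n : F, (t n)⁻¹ * ‖⟪ψ n, nrm f⟫_ℂ‖ ^ 2 := by
      rw [← Finset.sum_coe_sort, Finset.mul_sum]
      refine Finset.sum_congr rfl (fun n _ => ?_)
      simp only [n.2, dif_pos]
      rw [← inner_nrm (ψ n) f]
      ring
    rw [h4, mul_comm]
    exact mul_le_mul_of_nonneg_right h3 (by positivity)

/-- weights on the set of indices where both vectors are nonzero, by compactness -/
theorem weights_on_support {ι : Type*} (φ ψ : ι → H) (C K' : ℝ) (hC : 0 ≤ C)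
    (hK : (81 / 25) * C < K')
    (hyp : ∀ (F : Finset ι) (f g : H), ∑ n ∈ F, ‖⟪ψ n, f⟫_ℂ‖ * ‖⟪φ n, g⟫_ℂ‖ ≤ C * ‖f‖ * ‖g‖) :
    ∃ t : ι → ℝ, (∀ n, 0 < t n) ∧
      (∀ (F : Finset ι), (∀ n ∈ F, φ n ≠ 0 ∧ ψ n ≠ 0) → ∀ g : H,
        ∑ n ∈ F, t n * ‖⟪φ n, g⟫_ℂ‖ ^ 2 ≤ K' * ‖g‖ ^ 2 ∧
        ∑ n ∈ F, (t n)⁻¹ * ‖⟪ψ n, g⟫_ℂ‖ ^ 2 ≤ K' * ‖g‖ ^ 2) := by
  classical
  have hK0 : 0 < K' := lt_of_le_of_lt (by positivity) hK
  have hfin : ∀ d : Finset ι × Finset H × Finset H, ∃ t : ι → ℝ, (∀ n, 0 < t n) ∧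
      (∀ g ∈ d.2.1, ∑ n ∈ d.1, t n * ‖⟪φ n, g⟫_ℂ‖ ^ 2 ≤ K' * ‖g‖ ^ 2) ∧
      (∀ f ∈ d.2.2, ∑ n ∈ d.1, (t n)⁻¹ * ‖⟪ψ n, f⟫_ℂ‖ ^ 2 ≤ K' * ‖f‖ ^ 2) :=
    fun d => finite_weights φ ψ C K' hC hK hyp d.1 d.2.1 d.2.2
  choose t ht h1 h2 using hfin
  let 𝒰 : Ultrafilter (Finset ι × Finset H × Finset H) := Ultrafilter.of atTop
  have hU : (𝒰 : Filter (Finset ι × Finset H × Finset H)) ≤ atTop := Ultrafilter.of_le atTop
  -- partial sums for any smaller set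
  have hs1 : ∀ (F : Finset ι) (g : H), ∀ᶠ d in (𝒰 : Filter (Finset ι × Finset H × Finset H)),
      ∑ n ∈ F, t d n * ‖⟪φ n, g⟫_ℂ‖ ^ 2 ≤ K' * ‖g‖ ^ 2 := by
    intro F g
    have : ∀ᶠ d : Finset ι × Finset H × Finset H in atTop, (F, ({g} : Finset H), (∅ : Finset H)) ≤ d :=
      eventually_ge_atTop _
    filter_upwards [hU this] with d hd
    have hF : F ⊆ d.1 := hd.1
    have hg : g ∈ d.2.1 := hd.2.1 (Finset.mem_singleton_self g)
    refine le_trans ?_ (h1 d g hg)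
    exact Finset.sum_le_sum_of_subset_of_nonneg hF
      (fun n _ _ => mul_nonneg (ht d n).le (by positivity))
  have hs2 : ∀ (F : Finset ι) (g : H), ∀ᶠ d in (𝒰 : Filter (Finset ι × Finset H × Finset H)),
      ∑ n ∈ F, (t d n)⁻¹ * ‖⟪ψ n, g⟫_ℂ‖ ^ 2 ≤ K' * ‖g‖ ^ 2 := by
    intro F g
    have : ∀ᶠ d : Finset ι × Finset H × Finset H in atTop, (F, (∅ : Finset H), ({g} : Finset H)) ≤ d :=
      eventually_ge_atTop _
    filter_upwards [hU this] with d hd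
    have hF : F ⊆ d.1 := hd.1
    have hg : g ∈ d.2.2 := hd.2.2 (Finset.mem_singleton_self g)
    refine le_trans ?_ (h2 d g hg)
    exact Finset.sum_le_sum_of_subset_of_nonneg hF
      (fun n _ _ => mul_nonneg (inv_pos.2 (ht d n)).le (by positivity))
  have hlim : ∀ n : ι, ∃ s : ℝ, 0 < s ∧ ((φ n ≠ 0 ∧ ψ n ≠ 0) →
      Tendsto (fun d => t d n) (𝒰 : Filter (Finset ι × Finset H × Finset H)) (𝓝 s)) := by
    intro n
    by_cases hn : φ n ≠ 0 ∧ ψ n ≠ 0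
    · have hφ : 0 < ‖φ n‖ := norm_pos_iff.2 hn.1
      have hψ : 0 < ‖ψ n‖ := norm_pos_iff.2 hn.2
      have hbox : ∀ᶠ d in (𝒰 : Filter (Finset ι × Finset H × Finset H)),
          t d n ∈ Set.Icc (‖ψ n‖ ^ 2 / K') (K' / ‖φ n‖ ^ 2) := by
        filter_upwards [hs1 {n} (φ n), hs2 {n} (ψ n)] with d hd1 hd2
        simp only [Finset.sum_singleton] at hd1 hd2
        have e1 : ‖⟪φ n, φ n⟫_ℂ‖ = ‖φ n‖ ^ 2 := by
          rw [inner_self_eq_norm_sq_to_K]; simp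
        have e2 : ‖⟪ψ n, ψ n⟫_ℂ‖ = ‖ψ n‖ ^ 2 := by
          rw [inner_self_eq_norm_sq_to_K]; simp
        rw [e1] at hd1
        rw [e2] at hd2
        have htd := ht d n
        constructor
        · rw [div_le_iff₀ hK0]
          have h3 : (t d n)⁻¹ * ‖ψ n‖ ^ 2 ≤ K' := by
            have : ((t d n)⁻¹ * ‖ψ n‖ ^ 2) * ‖ψ n‖ ^ 2 ≤ K' * ‖ψ n‖ ^ 2 := by
              calc ((t d n)⁻¹ * ‖ψ n‖ ^ 2) * ‖ψ n‖ ^ 2 = (t d n)⁻¹ * (‖ψ n‖ ^ 2) ^ 2 := by ring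
                _ ≤ _ := hd2
            exact le_of_mul_le_mul_right this (by positivity)
          calc ‖ψ n‖ ^ 2 = t d n * ((t d n)⁻¹ * ‖ψ n‖ ^ 2) := by
                field_simp
            _ ≤ t d n * K' := mul_le_mul_of_nonneg_left h3 htd.le
        · rw [le_div_iff₀ (by positivity)]
          have : (t d n * ‖φ n‖ ^ 2) * ‖φ n‖ ^ 2 ≤ K' * ‖φ n‖ ^ 2 := by
            calc (t d n * ‖φ n‖ ^ 2) * ‖φ n‖ ^ 2 = t d n * (‖φ n‖ ^ 2) ^ 2 := by ring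
              _ ≤ _ := hd1
          exact le_of_mul_le_mul_right this (by positivity)
      have hmem : Set.Icc (‖ψ n‖ ^ 2 / K') (K' / ‖φ n‖ ^ 2) ∈ 𝒰.map (fun d => t d n) := hbox
      obtain ⟨s, hs, hs'⟩ := isCompact_Icc.ultrafilter_le_nhds' (𝒰.map (fun d => t d n)) hmem
      refine ⟨s, lt_of_lt_of_le (by positivity) hs.1, fun _ => hs'⟩
    · exact ⟨1, one_pos, fun h => absurd h hn⟩
  choose s hs0 hs using hlim
  refine ⟨s, hs0, fun F hF g => ⟨?_, ?_⟩⟩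
  · have hT : Tendsto (fun d => ∑ n ∈ F, t d n * ‖⟪φ n, g⟫_ℂ‖ ^ 2)
        (𝒰 : Filter (Finset ι × Finset H × Finset H)) (𝓝 (∑ n ∈ F, s n * ‖⟪φ n, g⟫_ℂ‖ ^ 2)) :=
      tendsto_finsetSum _ (fun n hn => (hs n (hF n hn)).mul_const _)
    exact le_of_tendsto hT (hs1 F g)
  · have hT : Tendsto (fun d => ∑ n ∈ F, (t d n)⁻¹ * ‖⟪ψ n, g⟫_ℂ‖ ^ 2)
        (𝒰 : Filter (Finset ι × Finset H × Finset H)) (𝓝 (∑ n ∈ F, (s n)⁻¹ * ‖⟪ψ n, g⟫_ℂ‖ ^ 2)) :=
      tendsto_finsetSum _ (fun n hn => ((hs n (hF n hn)).inv₀ (hs0 n).ne').mul_const _)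
    exact le_of_tendsto hT (hs2 F g)

end Pool.Agent.Helper45
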