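import Mathlib
import Pool.Agent.Helper45.Weights

set_option autoImplicit false
open scoped InnerProductSpace
open Filter Topology

namespace Pool.Agent.Helper45

variable {H : Type*} [NormedAddCommGroup H] [InnerProductSpace ℂ H]

theorem sum_half_le (F : Finset ℕ) : ∑ n ∈ F, ((1 : ℝ) / 2) ^ (n + 1) ≤ 1 := by
  have hs : Summable (fun n : ℕ => ((1 : ℝ) / 2) ^ (n + 1)) := by
    have := summable_geometric_two
    simpa [pow_succ] using this.mul_right ((1 : ℝ) / 2)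
  have h1 : ∑' n : ℕ, ((1 : ℝ) / 2) ^ (n + 1) = 1 := by
    have := tsum_geometric_two
    simp only [pow_succ, tsum_mul_right, this]
    norm_num
  exact (hs.sum_le_tsum F (fun n _ => by positivity)).trans h1.le

/-- global positive weights -/
theorem global_weights (φ ψ : ℕ → H) (C K' : ℝ) (hC : 0 ≤ C)
    (hK : (81 / 25) * C < K')
    (hyp : ∀ (F : Finset ℕ) (f g : H), ∑ n ∈ F, ‖⟪ψ n, f⟫_ℂ‖ * ‖⟪φ n, g⟫_ℂ‖ ≤ C * ‖f‖ * ‖g‖) :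
    ∃ t : ℕ → ℝ, (∀ n, 0 < t n) ∧
      (∀ (F : Finset ℕ) (g : H),
        ∑ n ∈ F, t n * ‖⟪φ n, g⟫_ℂ‖ ^ 2 ≤ K' * ‖g‖ ^ 2 ∧
        ∑ n ∈ F, (t n)⁻¹ * ‖⟪ψ n, g⟫_ℂ‖ ^ 2 ≤ K' * ‖g‖ ^ 2) := by
  classical
  set K₁ : ℝ := ((81 / 25) * C + K') / 2 with hK1
  set δ : ℝ := K' - K₁ with hδ
  have hKK : (81 / 25) * C < K₁ := by rw [hK1]; linarith
  have hδ0 : 0 < δ := by rw [hδ, hK1]; linarith
  obtain ⟨s, hs, hs'⟩ := weights_on_support φ ψ C K₁ hC hKK hyp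
  let t : ℕ → ℝ := fun n => if φ n ≠ 0 ∧ ψ n ≠ 0 then s n else
    if φ n = 0 then 2 ^ (n + 1) * (1 + ‖ψ n‖ ^ 2) / δ else δ / (2 ^ (n + 1) * (1 + ‖φ n‖ ^ 2))
  have ht : ∀ n, 0 < t n := by
    intro n
    simp only [t]
    split_ifs
    · exact hs n
    · positivity
    · positivity
  have hsmall : ∀ n, ¬ (φ n ≠ 0 ∧ ψ n ≠ 0) → ∀ g : H,
      t n * ‖⟪φ n, g⟫_ℂ‖ ^ 2 ≤ ((1 : ℝ) / 2) ^ (n + 1) * (δ * ‖g‖ ^ 2) ∧
      (t n)⁻¹ * ‖⟪ψ n, g⟫_ℂ‖ ^ 2 ≤ ((1 : ℝ) / 2) ^ (n + 1) * (δ * ‖g‖ ^ 2) := by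
    intro n hn g
    by_cases h0 : φ n = 0
    · have htn : t n = 2 ^ (n + 1) * (1 + ‖ψ n‖ ^ 2) / δ := by
        simp only [t]; rw [if_neg hn, if_pos h0]
      constructor
      · rw [h0, inner_zero_left, norm_zero]
        have : 0 ≤ ((1 : ℝ) / 2) ^ (n + 1) * (δ * ‖g‖ ^ 2) := by positivity
        simpa using this
      · rw [htn]
        have h1 : ‖⟪ψ n, g⟫_ℂ‖ ^ 2 ≤ ‖ψ n‖ ^ 2 * ‖g‖ ^ 2 := by
          rw [← mul_pow]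
          exact pow_le_pow_left₀ (norm_nonneg _) (norm_inner_le_norm _ _) 2
        have h2 : ‖⟪ψ n, g⟫_ℂ‖ ^ 2 ≤ (1 + ‖ψ n‖ ^ 2) * ‖g‖ ^ 2 := by
          nlinarith [sq_nonneg ‖g‖]
        calc (2 ^ (n + 1) * (1 + ‖ψ n‖ ^ 2) / δ)⁻¹ * ‖⟪ψ n, g⟫_ℂ‖ ^ 2
            ≤ (2 ^ (n + 1) * (1 + ‖ψ n‖ ^ 2) / δ)⁻¹ * ((1 + ‖ψ n‖ ^ 2) * ‖g‖ ^ 2) :=
              mul_le_mul_of_nonneg_left h2 (by positivity)
          _ = _ := by
              rw [one_div, inv_pow]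
              field_simp
    · have hψ : ψ n = 0 := by
        by_contra h; exact hn ⟨h0, h⟩
      have htn : t n = δ / (2 ^ (n + 1) * (1 + ‖φ n‖ ^ 2)) := by
        simp only [t]; rw [if_neg hn, if_neg h0]
      constructor
      · rw [htn]
        have h1 : ‖⟪φ n, g⟫_ℂ‖ ^ 2 ≤ ‖φ n‖ ^ 2 * ‖g‖ ^ 2 := by
          rw [← mul_pow]
          exact pow_le_pow_left₀ (norm_nonneg _) (norm_inner_le_norm _ _) 2
        have h2 : ‖⟪φ n, g⟫_ℂ‖ ^ 2 ≤ (1 + ‖φ n‖ ^ 2) * ‖g‖ ^ 2 := by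
          nlinarith [sq_nonneg ‖g‖]
        calc δ / (2 ^ (n + 1) * (1 + ‖φ n‖ ^ 2)) * ‖⟪φ n, g⟫_ℂ‖ ^ 2
            ≤ δ / (2 ^ (n + 1) * (1 + ‖φ n‖ ^ 2)) * ((1 + ‖φ n‖ ^ 2) * ‖g‖ ^ 2) :=
              mul_le_mul_of_nonneg_left h2 (by positivity)
          _ = _ := by
              rw [one_div, inv_pow]
              field_simp
      · rw [hψ, inner_zero_left, norm_zero]
        have : 0 ≤ ((1 : ℝ) / 2) ^ (n + 1) * (δ * ‖g‖ ^ 2) := by positivity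
        simpa using this
  refine ⟨t, ht, fun F g => ?_⟩
  have hsplit : ∀ h : ℕ → ℝ, ∑ n ∈ F, h n = ∑ n ∈ F.filter (fun n => φ n ≠ 0 ∧ ψ n ≠ 0), h n
      + ∑ n ∈ F.filter (fun n => ¬ (φ n ≠ 0 ∧ ψ n ≠ 0)), h n := by
    intro h
    rw [Finset.sum_filter_add_sum_filter_not]
  have hgood := hs' (F.filter (fun n => φ n ≠ 0 ∧ ψ n ≠ 0))
    (fun n hn => (Finset.mem_filter.1 hn).2) g
  have hmass : ∑ n ∈ F.filter (fun n => ¬ (φ n ≠ 0 ∧ ψ n ≠ 0)),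
      ((1 : ℝ) / 2) ^ (n + 1) * (δ * ‖g‖ ^ 2) ≤ δ * ‖g‖ ^ 2 := by
    rw [← Finset.sum_mul]
    have := sum_half_le (F.filter (fun n => ¬ (φ n ≠ 0 ∧ ψ n ≠ 0)))
    calc _ ≤ 1 * (δ * ‖g‖ ^ 2) := mul_le_mul_of_nonneg_right this (by positivity)
      _ = _ := one_mul _
  have hKsum : K' * ‖g‖ ^ 2 = K₁ * ‖g‖ ^ 2 + δ * ‖g‖ ^ 2 := by rw [hδ]; ring
  constructor
  · rw [hsplit, hKsum]
    refine add_le_add ?_ ?_
    · refine le_trans (le_of_eq ?_) hgood.1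
      refine Finset.sum_congr rfl (fun n hn => ?_)
      have : t n = s n := by simp only [t]; rw [if_pos (Finset.mem_filter.1 hn).2]
      rw [this]
    · refine le_trans (Finset.sum_le_sum (fun n hn => ?_)) hmass
      exact (hsmall n (Finset.mem_filter.1 hn).2 g).1
  · rw [hsplit, hKsum]
    refine add_le_add ?_ ?_
    · refine le_trans (le_of_eq ?_) hgood.2
      refine Finset.sum_congr rfl (fun n hn => ?_)
      have : t n = s n := by simp only [t]; rw [if_pos (Finset.mem_filter.1 hn).2]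
      rw [this]
    · refine le_trans (Finset.sum_le_sum (fun n hn => ?_)) hmass
      exact (hsmall n (Finset.mem_filter.1 hn).2 g).2

/-- a phase making a complex number nonnegative -/
theorem exists_phase (z : ℂ) : ∃ e : ℂ, ‖e‖ ≤ 1 ∧ e * z = (‖z‖ : ℂ) := by
  by_cases hz : z = 0
  · exact ⟨1, by simp, by simp [hz]⟩
  · have hz' : (‖z‖ : ℂ) ≠ 0 := by simpa using hz
    refine ⟨(starRingEnd ℂ z) / (‖z‖ : ℂ), ?_, ?_⟩
    · rw [norm_div, RCLike.norm_conj, Complex.norm_real, norm_norm,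
        div_self (by simpa using hz)]
    · rw [div_mul_eq_mul_div, mul_comm, Complex.mul_conj, Complex.normSq_eq_norm_sq]
      push_cast
      field_simp

/-- Uniform bound coming from unconditional convergence. -/
theorem uniform_bound [CompleteSpace H] (φ ψ : ℕ → H)
    (hsum : ∀ f : H, Summable (fun n : ℕ => ⟪ψ n, f⟫_ℂ • φ n)) :
    ∃ C : ℝ, 0 ≤ C ∧ ∀ (F : Finset ℕ) (f g : H),
      ∑ n ∈ F, ‖⟪ψ n, f⟫_ℂ‖ * ‖⟪φ n, g⟫_ℂ‖ ≤ C * ‖f‖ * ‖g‖ := by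
  classical
  let B := {e : ℕ → ℂ // ∀ n, ‖e n‖ ≤ 1}
  let T : Finset ℕ × B → (H →L[ℂ] H) := fun p =>
    ∑ n ∈ p.1, p.2.1 n • (innerSL ℂ (ψ n)).smulRight (φ n)
  have hT : ∀ (p : Finset ℕ × B) (f : H), T p f = ∑ n ∈ p.1, (p.2.1 n * ⟪ψ n, f⟫_ℂ) • φ n := by
    intro p f
    simp only [T, sum_apply, smul_apply,
      ContinuousLinearMap.smulRight_apply, innerSL_apply_apply, smul_smul]
  have hpt : ∀ f : H, ∃ C, ∀ p, ‖T p f‖ ≤ C := by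
    intro f
    let ℓ : Finset ℕ × B → (H →L[ℂ] ℂ) := fun p => innerSL ℂ (T p f)
    have hℓ : ∀ g : H, ∃ C, ∀ p, ‖ℓ p g‖ ≤ C := by
      intro g
      have hs : Summable (fun n : ℕ => ⟪ψ n, f⟫_ℂ * ⟪g, φ n⟫_ℂ) := by
        have := (hsum f).mapL (innerSL ℂ g)
        simpa [inner_smul_right] using this
      have hsn : Summable (fun n : ℕ => ‖⟪ψ n, f⟫_ℂ * ⟪g, φ n⟫_ℂ‖) := hs.norm
      refine ⟨∑' n, ‖⟪ψ n, f⟫_ℂ * ⟪g, φ n⟫_ℂ‖, fun p => ?_⟩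
      have h1 : ‖ℓ p g‖ = ‖⟪g, T p f⟫_ℂ‖ := by
        simp only [ℓ, innerSL_apply_apply]
        rw [norm_inner_symm]
      rw [h1, hT, inner_sum]
      refine (norm_sum_le _ _).trans ?_
      refine le_trans (Finset.sum_le_sum (fun n _ => ?_)) (hsn.sum_le_tsum p.1 (fun n _ => norm_nonneg _))
      rw [inner_smul_right, mul_assoc, norm_mul]
      have := p.2.2 n
      calc ‖p.2.1 n‖ * ‖⟪ψ n, f⟫_ℂ * ⟪g, φ n⟫_ℂ‖ ≤ 1 * ‖⟪ψ n, f⟫_ℂ * ⟪g, φ n⟫_ℂ‖ :=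
            mul_le_mul_of_nonneg_right this (norm_nonneg _)
        _ = _ := one_mul _
    obtain ⟨C, hC⟩ := banach_steinhaus hℓ
    refine ⟨C, fun p => ?_⟩
    have := hC p
    simpa only [ℓ, innerSL_apply_norm] using this
  obtain ⟨C, hC⟩ := banach_steinhaus hpt
  refine ⟨max C 0, le_max_right _ _, fun F f g => ?_⟩
  choose e he1 he2 using fun n : ℕ => exists_phase (⟪ψ n, f⟫_ℂ * ⟪g, φ n⟫_ℂ)
  have h1 := hC (F, ⟨e, he1⟩)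
  have h2 : ⟪g, T (F, ⟨e, he1⟩) f⟫_ℂ = ((∑ n ∈ F, ‖⟪ψ n, f⟫_ℂ‖ * ‖⟪φ n, g⟫_ℂ‖ : ℝ) : ℂ) := by
    rw [hT, inner_sum]
    push_cast
    refine Finset.sum_congr rfl (fun n _ => ?_)
    rw [inner_smul_right, mul_assoc, he2, norm_mul, norm_inner_symm g (φ n)]
    push_cast
    rfl
  have h3 : ∑ n ∈ F, ‖⟪ψ n, f⟫_ℂ‖ * ‖⟪φ n, g⟫_ℂ‖ = ‖⟪g, T (F, ⟨e, he1⟩) f⟫_ℂ‖ := by
    rw [h2, Complex.norm_real, Real.norm_eq_abs, abs_of_nonneg]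
    positivity
  rw [h3]
  calc ‖⟪g, T (F, ⟨e, he1⟩) f⟫_ℂ‖ ≤ ‖g‖ * ‖T (F, ⟨e, he1⟩) f‖ := norm_inner_le_norm _ _
    _ ≤ ‖g‖ * (‖T (F, ⟨e, he1⟩)‖ * ‖f‖) :=
        mul_le_mul_of_nonneg_left (ContinuousLinearMap.le_opNorm _ _) (norm_nonneg _)
    _ ≤ ‖g‖ * (max C 0 * ‖f‖) := by
        refine mul_le_mul_of_nonneg_left ?_ (norm_nonneg _)
        exact mul_le_mul_of_nonneg_right (h1.trans (le_max_left _ _)) (norm_nonneg _)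
    _ = _ := by ring

end Pool.Agent.Helper45
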