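import Mathlib
import Pool.Agent.Helper85.FC.Defs

/-! # Levi's procedure for systems of word equations between safe variables -/

set_option autoImplicit false

namespace Pool.Agent.Helper45.FCLevi

open Pool.Agent.Helper85.FC

variable {A V W : Type}

theorem subst_nil (σ : V → List A) : subst σ ([] : Pattern A V) = [] := rfl

theorem subst_inl (σ : V → List A) (a : A) (α : Pattern A V) :
    subst σ (Sum.inl a :: α) = a :: subst σ α := by
  simp [subst]

theorem subst_inr (σ : V → List A) (x : V) (α : Pattern A V) :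
    subst σ (Sum.inr x :: α) = σ x ++ subst σ α := by
  simp [subst]

theorem subst_congr {σ τ : V → List A} (α : Pattern A V)
    (h : ∀ x, Sum.inr x ∈ α → σ x = τ x) : subst σ α = subst τ α := by
  induction α with
  | nil => rfl
  | cons c α ih =>
    have ih' := ih (fun x hx => h x (List.mem_cons_of_mem _ hx))
    cases c with
    | inl a => rw [subst_inl, subst_inl, ih']
    | inr x => rw [subst_inr, subst_inr, ih', h x (List.mem_cons_self)]

/-- Substitution of patterns for variables in a pattern. -/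
def sub (r : V → Pattern A W) (α : Pattern A V) : Pattern A W :=
  α.flatMap (Sum.elim (fun a => [Sum.inl a]) r)

theorem subst_append (σ : V → List A) (α β : Pattern A V) :
    subst σ (α ++ β) = subst σ α ++ subst σ β := by
  simp [subst]

theorem subst_sub (τ : W → List A) (r : V → Pattern A W) (α : Pattern A V) :
    subst τ (sub r α) = subst (fun x => subst τ (r x)) α := by
  induction α with
  | nil => rfl
  | cons c α ih =>
    cases c with
    | inl a =>
      rw [subst_inl, ← ih]
      have : sub r (Sum.inl a :: α) = Sum.inl a :: sub r α := by simp [sub]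
      rw [this, subst_inl]
    | inr x =>
      rw [subst_inr, ← ih]
      have : sub r (Sum.inr x :: α) = r x ++ sub r α := by simp [sub]
      rw [this, subst_append]

/-! ### Levi's procedure -/

/-- All variables of the pattern are below `n`. -/
def Below (n : ℕ) (α : Pattern A ℕ) : Prop := ∀ x, Sum.inr x ∈ α → x < n

/-- Pending equations. -/
abbrev Pend (A : Type) : Type := List (Pattern A ℕ × Pattern A ℕ)

/-- The pending equations are satisfied. -/
def PSat (P : Pend A) (σ : ℕ → List A) : Prop := ∀ e ∈ P, subst σ e.1 = subst σ e.2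

/-- All variables are below `n`. -/
structure Ok (n : ℕ) (φ : SCQ A ℕ) (P : Pend A) : Prop where
  pos : 0 < n
  eqs : ∀ e ∈ φ.eqs, e.1 < n ∧ Below n e.2
  regs : ∀ r ∈ φ.regs, r.1 < n
  pend : ∀ e ∈ P, Below n e.1 ∧ Below n e.2

/-- The language of a query together with pending equations. -/
def Sol (φ : SCQ A ℕ) (P : Pend A) (u : List A) : Prop :=
  ∃ σ : ℕ → List A, (∀ x, σ x <:+: σ 0) ∧ φ.Sat σ ∧ PSat P σ ∧ σ 0 = u

/-- The measure of the induction. -/
def meas (P : Pend A) : ℕ := (P.map (fun e => e.1.length + e.2.length + 1)).sum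

/-- The conclusion of the procedure. -/
def Good (φ : SCQ A ℕ) (P : Pend A) : Prop :=
  ∃ l : List (SCQ A ℕ), (∀ ψ ∈ l, ψ.Reg) ∧ ∀ u, Sol φ P u ↔ ∃ ψ ∈ l, u ∈ ψ.lang 0

/-- Add an equation to a query. -/
def addEq (φ : SCQ A ℕ) (x : ℕ) (α : Pattern A ℕ) : SCQ A ℕ := ⟨(x, α) :: φ.eqs, φ.regs⟩

theorem addEq_sat (φ : SCQ A ℕ) (x : ℕ) (α : Pattern A ℕ) (σ : ℕ → List A) :
    (addEq φ x α).Sat σ ↔ σ x = subst σ α ∧ φ.Sat σ := by
  constructor
  · rintro ⟨h1, h2⟩
    exact ⟨h1 (x, α) (List.mem_cons_self), fun e he => h1 e (List.mem_cons_of_mem _ he), h2⟩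
  · rintro ⟨h1, h2, h3⟩
    refine ⟨?_, h3⟩
    intro e he
    rcases List.mem_cons.1 he with rfl | he
    · exact h1
    · exact h2 e he

theorem addEq_reg {φ : SCQ A ℕ} (h : φ.Reg) (x : ℕ) (α : Pattern A ℕ) : (addEq φ x α).Reg := h

theorem pSat_cons (α β : Pattern A ℕ) (P : Pend A) (σ : ℕ → List A) :
    PSat ((α, β) :: P) σ ↔ subst σ α = subst σ β ∧ PSat P σ := by
  constructor
  · intro h
    exact ⟨h (α, β) (List.mem_cons_self), fun e he => h e (List.mem_cons_of_mem _ he)⟩
  · rintro ⟨h1, h2⟩ e he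
    rcases List.mem_cons.1 he with rfl | he
    · exact h1
    · exact h2 e he

theorem Good.congr {φ φ1 : SCQ A ℕ} {P P1 : Pend A} (h1 : Good φ1 P1)
    (h : ∀ u, Sol φ P u ↔ Sol φ1 P1 u) : Good φ P := by
  obtain ⟨l, hl, hl2⟩ := h1
  exact ⟨l, hl, fun u => (h u).trans (hl2 u)⟩

theorem Good.or {φ φ1 φ2 : SCQ A ℕ} {P P1 P2 : Pend A} (h1 : Good φ1 P1) (h2 : Good φ2 P2)
    (h : ∀ u, Sol φ P u ↔ Sol φ1 P1 u ∨ Sol φ2 P2 u) : Good φ P := by
  obtain ⟨l, hl, hl2⟩ := h1
  obtain ⟨m, hm, hm2⟩ := h2
  refine ⟨l ++ m, ?_, ?_⟩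
  · intro ψ hψ
    rcases List.mem_append.1 hψ with h | h
    · exact hl ψ h
    · exact hm ψ h
  · intro u
    rw [h u, hl2 u, hm2 u]
    constructor
    · rintro (⟨ψ, h1, h2⟩ | ⟨ψ, h1, h2⟩)
      · exact ⟨ψ, List.mem_append.2 (Or.inl h1), h2⟩
      · exact ⟨ψ, List.mem_append.2 (Or.inr h1), h2⟩
    · rintro ⟨ψ, h1, h2⟩
      rcases List.mem_append.1 h1 with h | h
      · exact Or.inl ⟨ψ, h, h2⟩
      · exact Or.inr ⟨ψ, h, h2⟩

theorem Good.none {φ : SCQ A ℕ} {P : Pend A} (h : ∀ u, ¬ Sol φ P u) : Good φ P :=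
  ⟨[], by simp, fun u => ⟨fun h' => absurd h' (h u), fun ⟨_, h', _⟩ => by simp at h'⟩⟩

theorem Below.mono {n m : ℕ} {α : Pattern A ℕ} (h : Below n α) (hnm : n ≤ m) : Below m α :=
  fun x hx => (h x hx).trans_le hnm

theorem Below.tail {n : ℕ} {c : A ⊕ ℕ} {α : Pattern A ℕ} (h : Below n (c :: α)) : Below n α :=
  fun x hx => h x (List.mem_cons_of_mem _ hx)

theorem Below.head {n x : ℕ} {α : Pattern A ℕ} (h : Below n (Sum.inr x :: α)) : x < n :=
  h x (List.mem_cons_self)

theorem Below.cons {n x : ℕ} {α : Pattern A ℕ} (hx : x < n) (h : Below n α) :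
    Below n (Sum.inr x :: α) := by
  intro y hy
  rcases List.mem_cons.1 hy with h1 | h1
  · rw [Sum.inr.injEq] at h1
    omega
  · exact h y h1

theorem Below.consl {n : ℕ} (a : A) {α : Pattern A ℕ} (h : Below n α) :
    Below n (Sum.inl a :: α) := by
  intro y hy
  rcases List.mem_cons.1 hy with h1 | h1
  · exact absurd h1 (by simp)
  · exact h y h1

theorem Below.nil (n : ℕ) : Below n ([] : Pattern A ℕ) := fun x hx => by simp at hx

theorem Ok.tail {n : ℕ} {φ : SCQ A ℕ} {P : Pend A} {e : Pattern A ℕ × Pattern A ℕ}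
    (h : Ok n φ (e :: P)) : Ok n φ P :=
  ⟨h.pos, h.eqs, h.regs, fun e he => h.pend e (List.mem_cons_of_mem _ he)⟩

theorem Ok.cons {n : ℕ} {φ : SCQ A ℕ} {P : Pend A} {α β : Pattern A ℕ}
    (h : Ok n φ P) (hα : Below n α) (hβ : Below n β) : Ok n φ ((α, β) :: P) := by
  refine ⟨h.pos, h.eqs, h.regs, ?_⟩
  intro e he
  rcases List.mem_cons.1 he with rfl | he
  · exact ⟨hα, hβ⟩
  · exact h.pend e he

theorem Ok.add {n m : ℕ} {φ : SCQ A ℕ} {P : Pend A} (h : Ok n φ P) (hnm : n ≤ m) {x : ℕ}
    (hx : x < m) {α : Pattern A ℕ} (hα : Below m α) : Ok m (addEq φ x α) P := by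
  refine ⟨h.pos.trans_le hnm, ?_, ?_, ?_⟩
  · intro e he
    rcases List.mem_cons.1 he with rfl | he
    · exact ⟨hx, hα⟩
    · exact ⟨(h.eqs e he).1.trans_le hnm, (h.eqs e he).2.mono hnm⟩
  · intro r hr
    exact (h.regs r hr).trans_le hnm
  · intro e he
    exact ⟨(h.pend e he).1.mono hnm, (h.pend e he).2.mono hnm⟩

/-- A fresh variable may take any value that is a factor of the value of `0`. -/
theorem fresh {n : ℕ} {φ : SCQ A ℕ} {P : Pend A} (hOk : Ok n φ P) {σ : ℕ → List A}
    (hs : ∀ x, σ x <:+: σ 0) (hφ : φ.Sat σ) (hP : PSat P σ) (t : List A) (ht : t <:+: σ 0) :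
    (∀ x, Function.update σ n t x <:+: Function.update σ n t 0) ∧
      φ.Sat (Function.update σ n t) ∧ PSat P (Function.update σ n t) ∧
      (∀ x, x < n → Function.update σ n t x = σ x) ∧
      (∀ α : Pattern A ℕ, Below n α → subst (Function.update σ n t) α = subst σ α) ∧
      Function.update σ n t n = t := by
  have h1 : ∀ x, x < n → Function.update σ n t x = σ x := fun x hx =>
    Function.update_of_ne (by omega) _ _
  have h2 : ∀ α : Pattern A ℕ, Below n α → subst (Function.update σ n t) α = subst σ α :=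
    fun α hα => subst_congr α (fun x hx => h1 x (hα x hx))
  have h3 : Function.update σ n t n = t := Function.update_self _ _ _
  refine ⟨?_, ⟨?_, ?_⟩, ?_, h1, h2, h3⟩
  · intro x
    rw [h1 0 hOk.pos]
    by_cases hx : x = n
    · rw [hx, h3]
      exact ht
    · rw [Function.update_of_ne hx]
      exact hs x
  · intro e he
    rw [h1 _ (hOk.eqs e he).1, h2 _ (hOk.eqs e he).2]
    exact hφ.1 e he
  · intro r hr
    rw [h1 _ (hOk.regs r hr)]
    exact hφ.2 r hr
  · intro e he
    rw [h2 _ (hOk.pend e he).1, h2 _ (hOk.pend e he).2]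
    exact hP e he

theorem sol_swap (φ : SCQ A ℕ) (α β : Pattern A ℕ) (P : Pend A) (u : List A) :
    Sol φ ((α, β) :: P) u ↔ Sol φ ((β, α) :: P) u := by
  unfold Sol
  simp only [pSat_cons]
  constructor <;>
  · rintro ⟨σ, h1, h2, ⟨h3, h4⟩, h5⟩
    exact ⟨σ, h1, h2, ⟨h3.symm, h4⟩, h5⟩

theorem sol_nil_inr (φ : SCQ A ℕ) (x : ℕ) (β : Pattern A ℕ) (P : Pend A) (u : List A) :
    Sol φ (([], Sum.inr x :: β) :: P) u ↔ Sol (addEq φ x []) (([], β) :: P) u := by
  unfold Sol
  simp only [pSat_cons, addEq_sat, subst_inr, subst_nil]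
  constructor
  · rintro ⟨σ, h1, h2, ⟨h3, h4⟩, h5⟩
    have h6 := List.append_eq_nil_iff.1 h3.symm
    exact ⟨σ, h1, ⟨h6.1, h2⟩, ⟨h6.2.symm, h4⟩, h5⟩
  · rintro ⟨σ, h1, ⟨h6, h2⟩, ⟨h3, h4⟩, h5⟩
    exact ⟨σ, h1, h2, ⟨by rw [h6, ← h3]; rfl, h4⟩, h5⟩

theorem sol_inl_inr {n : ℕ} (φ : SCQ A ℕ) (a : A) (x : ℕ) (α β : Pattern A ℕ) (P : Pend A)
    (hOk : Ok n φ ((Sum.inl a :: α, Sum.inr x :: β) :: P)) (u : List A) :
    Sol φ ((Sum.inl a :: α, Sum.inr x :: β) :: P) u ↔
      Sol (addEq φ x []) ((Sum.inl a :: α, β) :: P) u ∨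
      Sol (addEq φ x [Sum.inl a, Sum.inr n]) ((α, Sum.inr n :: β) :: P) u := by
  have hb := hOk.pend _ (List.mem_cons_self)
  have hx : x < n := hb.2.head
  have hα : Below n α := hb.1.tail
  have hβ : Below n β := hb.2.tail
  unfold Sol
  simp only [pSat_cons, addEq_sat, subst_inr, subst_inl, subst_nil]
  constructor
  · rintro ⟨σ, h1, h2, ⟨h3, h4⟩, h5⟩
    cases hσ : σ x with
    | nil =>
      left
      rw [hσ] at h3
      exact ⟨σ, h1, ⟨hσ, h2⟩, ⟨h3, h4⟩, h5⟩
    | cons c t =>
      right
      rw [hσ, List.cons_append] at h3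
      obtain ⟨hac, h3⟩ := List.cons.inj h3
      have ht : t <:+: σ 0 := by
        refine List.IsInfix.trans ?_ (h1 x)
        rw [hσ]
        exact (List.suffix_cons c t).isInfix
      obtain ⟨f1, f2, f3, f4, f5, f6⟩ := fresh hOk.tail h1 h2 h4 t ht
      refine ⟨Function.update σ n t, f1, ⟨?_, f2⟩, ⟨?_, f3⟩, ?_⟩
      · rw [f4 x hx, f6, hσ, hac]
        simp
      · rw [f5 α hα, f5 β hβ, f6, h3]
      · rw [f4 0 hOk.pos, h5]
  · rintro (⟨σ, h1, ⟨h6, h2⟩, ⟨h3, h4⟩, h5⟩ | ⟨σ, h1, ⟨h6, h2⟩, ⟨h3, h4⟩, h5⟩)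
    · exact ⟨σ, h1, h2, ⟨by rw [h6, h3]; rfl, h4⟩, h5⟩
    · exact ⟨σ, h1, h2, ⟨by rw [h6, h3]; simp, h4⟩, h5⟩

theorem sol_inr_inr {n : ℕ} (φ : SCQ A ℕ) (x y : ℕ) (α β : Pattern A ℕ) (P : Pend A)
    (hOk : Ok n φ ((Sum.inr x :: α, Sum.inr y :: β) :: P)) (u : List A) :
    Sol φ ((Sum.inr x :: α, Sum.inr y :: β) :: P) u ↔
      Sol (addEq φ x [Sum.inr y, Sum.inr n]) ((Sum.inr n :: α, β) :: P) u ∨
      Sol (addEq φ y [Sum.inr x, Sum.inr n]) ((α, Sum.inr n :: β) :: P) u := by
  have hb := hOk.pend _ (List.mem_cons_self)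
  have hx : x < n := hb.1.head
  have hy : y < n := hb.2.head
  have hα : Below n α := hb.1.tail
  have hβ : Below n β := hb.2.tail
  unfold Sol
  simp only [pSat_cons, addEq_sat, subst_inr, subst_nil]
  constructor
  · rintro ⟨σ, h1, h2, ⟨h3, h4⟩, h5⟩
    rcases List.append_eq_append_iff.1 h3 with ⟨t, h6, h7⟩ | ⟨t, h6, h7⟩
    · right
      have ht : t <:+: σ 0 := by
        refine List.IsInfix.trans ?_ (h1 y)
        rw [h6]
        exact (List.suffix_append _ _).isInfix
      obtain ⟨f1, f2, f3, f4, f5, f6⟩ := fresh hOk.tail h1 h2 h4 t ht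
      refine ⟨Function.update σ n t, f1, ⟨?_, f2⟩, ⟨?_, f3⟩, ?_⟩
      · rw [f4 x hx, f4 y hy, f6, h6]
        simp
      · rw [f5 α hα, f5 β hβ, f6, h7]
      · rw [f4 0 hOk.pos, h5]
    · left
      have ht : t <:+: σ 0 := by
        refine List.IsInfix.trans ?_ (h1 x)
        rw [h6]
        exact (List.suffix_append _ _).isInfix
      obtain ⟨f1, f2, f3, f4, f5, f6⟩ := fresh hOk.tail h1 h2 h4 t ht
      refine ⟨Function.update σ n t, f1, ⟨?_, f2⟩, ⟨?_, f3⟩, ?_⟩
      · rw [f4 x hx, f4 y hy, f6, h6]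
        simp
      · rw [f5 α hα, f5 β hβ, f6, h7]
      · rw [f4 0 hOk.pos, h5]
  · rintro (⟨σ, h1, ⟨h6, h2⟩, ⟨h3, h4⟩, h5⟩ | ⟨σ, h1, ⟨h6, h2⟩, ⟨h3, h4⟩, h5⟩)
    · exact ⟨σ, h1, h2, ⟨by rw [h6, ← h3]; simp, h4⟩, h5⟩
    · exact ⟨σ, h1, h2, ⟨by rw [h6, h3]; simp, h4⟩, h5⟩

theorem meas_cons (α β : Pattern A ℕ) (P : Pend A) :
    meas ((α, β) :: P) = α.length + β.length + 1 + meas P := by
  simp [meas]

theorem Ok.swap {n : ℕ} {φ : SCQ A ℕ} {P : Pend A} {α β : Pattern A ℕ}
    (h : Ok n φ ((α, β) :: P)) : Ok n φ ((β, α) :: P) :=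
  h.tail.cons (h.pend _ List.mem_cons_self).2 (h.pend _ List.mem_cons_self).1

theorem levi_aux (N : ℕ) : ∀ (n : ℕ) (φ : SCQ A ℕ) (P : Pend A), meas P < N → Ok n φ P →
    φ.Reg → Good φ P := by
  induction N with
  | zero => intro n φ P h; omega
  | succ N ih =>
    intro n φ P hm hOk hReg
    match P, hm, hOk with
    | [], hm, hOk =>
      refine ⟨[φ], by simpa using hReg, fun u => ?_⟩
      constructor
      · rintro ⟨σ, h1, h2, h3, h4⟩
        exact ⟨φ, by simp, σ, h1, h2, h4⟩
      · rintro ⟨ψ, hψ, σ, h1, h2, h4⟩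
        rw [List.mem_singleton] at hψ
        subst hψ
        exact ⟨σ, h1, h2, fun e he => by simp at he, h4⟩
    | ([], []) :: P, hm, hOk =>
      rw [meas_cons] at hm
      refine (ih n φ P (by omega) hOk.tail hReg).congr fun u => ?_
      unfold Sol
      simp [pSat_cons]
    | ([], Sum.inl a :: β) :: P, hm, hOk =>
      refine Good.none fun u => ?_
      rintro ⟨σ, h1, h2, h3, h4⟩
      rw [pSat_cons, subst_inl, subst_nil] at h3
      exact absurd h3.1 (by simp)
    | (Sum.inl a :: α, []) :: P, hm, hOk =>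
      refine Good.none fun u => ?_
      rintro ⟨σ, h1, h2, h3, h4⟩
      rw [pSat_cons, subst_inl, subst_nil] at h3
      exact absurd h3.1 (by simp)
    | ([], Sum.inr x :: β) :: P, hm, hOk =>
      rw [meas_cons] at hm
      have hb := hOk.pend _ (List.mem_cons_self)
      refine (ih n (addEq φ x []) (([], β) :: P) ?_ ?_ hReg).congr (sol_nil_inr φ x β P)
      · rw [meas_cons]
        simp only [List.length_cons] at hm
        omega
      · exact (hOk.tail.cons hb.1 hb.2.tail).add le_rfl hb.2.head (Below.nil _)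
    | (Sum.inr x :: α, []) :: P, hm, hOk =>
      rw [meas_cons] at hm
      have hb := hOk.pend _ (List.mem_cons_self)
      refine (ih n (addEq φ x []) (([], α) :: P) ?_ ?_ hReg).congr fun u => ?_
      · rw [meas_cons]
        simp only [List.length_cons] at hm ⊢
        omega
      · exact (hOk.tail.cons hb.2 hb.1.tail).add le_rfl hb.1.head (Below.nil _)
      · rw [sol_swap]
        exact sol_nil_inr φ x α P u
    | (Sum.inl a :: α, Sum.inl b :: β) :: P, hm, hOk =>
      rw [meas_cons] at hm
      have hb := hOk.pend _ (List.mem_cons_self)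
      by_cases hab : a = b
      · subst hab
        refine (ih n φ ((α, β) :: P) ?_ (hOk.tail.cons hb.1.tail hb.2.tail) hReg).congr
          fun u => ?_
        · rw [meas_cons]
          simp only [List.length_cons] at hm
          omega
        · unfold Sol
          simp [pSat_cons, subst_inl]
      · refine Good.none fun u => ?_
        rintro ⟨σ, h1, h2, h3, h4⟩
        rw [pSat_cons, subst_inl, subst_inl] at h3
        exact hab (List.cons.inj h3.1).1
    | (Sum.inl a :: α, Sum.inr x :: β) :: P, hm, hOk =>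
      rw [meas_cons] at hm
      have hb := hOk.pend _ (List.mem_cons_self)
      refine Good.or (ih n (addEq φ x []) ((Sum.inl a :: α, β) :: P) ?_ ?_ hReg)
        (ih (n + 1) (addEq φ x [Sum.inl a, Sum.inr n]) ((α, Sum.inr n :: β) :: P) ?_ ?_ hReg)
        (sol_inl_inr φ a x α β P hOk)
      · rw [meas_cons]
        simp only [List.length_cons] at hm ⊢
        omega
      · exact (hOk.tail.cons hb.1 hb.2.tail).add le_rfl hb.2.head (Below.nil _)
      · rw [meas_cons]
        simp only [List.length_cons] at hm ⊢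
        omega
      · have h1 : Ok (n + 1) (addEq φ x [Sum.inl a, Sum.inr n]) P :=
          hOk.tail.add (Nat.le_succ n) (hb.2.head.trans (Nat.lt_succ_self n))
            (Below.consl a (Below.cons (Nat.lt_succ_self n) (Below.nil _)))
        exact h1.cons (hb.1.tail.mono (Nat.le_succ n))
          (Below.cons (Nat.lt_succ_self n) (hb.2.tail.mono (Nat.le_succ n)))
    | (Sum.inr x :: α, Sum.inl a :: β) :: P, hm, hOk =>
      rw [meas_cons] at hm
      have hb := hOk.pend _ (List.mem_cons_self)
      refine Good.or (ih n (addEq φ x []) ((Sum.inl a :: β, α) :: P) ?_ ?_ hReg)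
        (ih (n + 1) (addEq φ x [Sum.inl a, Sum.inr n]) ((β, Sum.inr n :: α) :: P) ?_ ?_ hReg)
        (fun u => ?_)
      · rw [meas_cons]
        simp only [List.length_cons] at hm ⊢
        omega
      · exact (hOk.tail.cons hb.2 hb.1.tail).add le_rfl hb.1.head (Below.nil _)
      · rw [meas_cons]
        simp only [List.length_cons] at hm ⊢
        omega
      · have h1 : Ok (n + 1) (addEq φ x [Sum.inl a, Sum.inr n]) P :=
          hOk.tail.add (Nat.le_succ n) (hb.1.head.trans (Nat.lt_succ_self n))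
            (Below.consl a (Below.cons (Nat.lt_succ_self n) (Below.nil _)))
        exact h1.cons (hb.2.tail.mono (Nat.le_succ n))
          (Below.cons (Nat.lt_succ_self n) (hb.1.tail.mono (Nat.le_succ n)))
      · rw [sol_swap]
        exact sol_inl_inr φ a x β α P hOk.swap u
    | (Sum.inr x :: α, Sum.inr y :: β) :: P, hm, hOk =>
      rw [meas_cons] at hm
      have hb := hOk.pend _ (List.mem_cons_self)
      refine Good.or
        (ih (n + 1) (addEq φ x [Sum.inr y, Sum.inr n]) ((Sum.inr n :: α, β) :: P) ?_ ?_ hReg)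
        (ih (n + 1) (addEq φ y [Sum.inr x, Sum.inr n]) ((α, Sum.inr n :: β) :: P) ?_ ?_ hReg)
        (sol_inr_inr φ x y α β P hOk)
      · rw [meas_cons]
        simp only [List.length_cons] at hm ⊢
        omega
      · have h1 : Ok (n + 1) (addEq φ x [Sum.inr y, Sum.inr n]) P :=
          hOk.tail.add (Nat.le_succ n) (hb.1.head.trans (Nat.lt_succ_self n))
            (Below.cons (hb.2.head.trans (Nat.lt_succ_self n))
              (Below.cons (Nat.lt_succ_self n) (Below.nil _)))
        exact h1.cons (Below.cons (Nat.lt_succ_self n) (hb.1.tail.mono (Nat.le_succ n)))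
          (hb.2.tail.mono (Nat.le_succ n))
      · rw [meas_cons]
        simp only [List.length_cons] at hm ⊢
        omega
      · have h1 : Ok (n + 1) (addEq φ y [Sum.inr x, Sum.inr n]) P :=
          hOk.tail.add (Nat.le_succ n) (hb.2.head.trans (Nat.lt_succ_self n))
            (Below.cons (hb.1.head.trans (Nat.lt_succ_self n))
              (Below.cons (Nat.lt_succ_self n) (Below.nil _)))
        exact h1.cons (hb.1.tail.mono (Nat.le_succ n))
          (Below.cons (Nat.lt_succ_self n) (hb.2.tail.mono (Nat.le_succ n)))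

/-! ### Transfer to variables indexed by natural numbers -/

theorem exists_injection (V : Type) [Finite V] (w : V) :
    ∃ (f : V → ℕ) (n : ℕ), Function.Injective f ∧ f w = 0 ∧ ∀ v, f v < n := by
  classical
  obtain ⟨m, ⟨e⟩⟩ := Finite.exists_equiv_fin V
  have hm : 0 < m := (e w).pos
  let z : Fin m := ⟨0, hm⟩
  refine ⟨fun v => (Equiv.swap (e w) z (e v) : Fin m), m, ?_, ?_, ?_⟩
  · intro a b hab
    have h1 : Equiv.swap (e w) z (e a) = Equiv.swap (e w) z (e b) := Fin.ext hab
    exact e.injective ((Equiv.swap (e w) z).injective h1)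
  · simp [z]
  · intro v
    exact Fin.is_lt _

theorem mem_sub_inr {f : V → ℕ} {α : Pattern A V} {x : ℕ}
    (h : Sum.inr x ∈ sub (fun v => [Sum.inr (f v)]) α) : ∃ v, f v = x := by
  unfold sub at h
  rw [List.mem_flatMap] at h
  obtain ⟨c, hc, hx⟩ := h
  cases c with
  | inl a => simp at hx
  | inr v =>
    simp only [Sum.elim_inr, List.mem_singleton, Sum.inr.injEq] at hx
    exact ⟨v, hx.symm⟩

theorem levi : LeviStatement := by
  intro A _ V _ w S hS
  classical
  obtain ⟨f, n, hf, hf0, hfn⟩ := exists_injection V w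
  set r : V → Pattern A ℕ := fun v => [Sum.inr (f v)] with hr
  set φ : SCQ A ℕ := ⟨[], S.regs.map (fun p => (f p.1, p.2))⟩ with hφ
  set P : Pend A := S.eqs.map (fun e => (sub r e.1, sub r e.2)) with hP
  have hOk : Ok n φ P := by
    refine ⟨?_, ?_, ?_, ?_⟩
    · exact (Nat.zero_le _).trans_lt (hfn w)
    · intro e he
      simp [hφ] at he
    · intro q hq
      simp only [hφ, List.mem_map] at hq
      obtain ⟨p, hp, rfl⟩ := hq
      exact hfn _
    · intro e he
      simp only [hP, List.mem_map] at he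
      obtain ⟨p, hp, rfl⟩ := he
      constructor
      · intro x hx
        obtain ⟨v, rfl⟩ := mem_sub_inr hx
        exact hfn v
      · intro x hx
        obtain ⟨v, rfl⟩ := mem_sub_inr hx
        exact hfn v
  have hReg : φ.Reg := by
    intro q hq
    simp only [hφ, List.mem_map] at hq
    obtain ⟨p, hp, rfl⟩ := hq
    exact hS p hp
  obtain ⟨l, hl, hl2⟩ := levi_aux (meas P + 1) n φ P (Nat.lt_succ_self _) hOk hReg
  refine ⟨l, hl, fun u => ?_⟩
  rw [← hl2 u]
  have hsub : ∀ (τ : ℕ → List A) (α : Pattern A V),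
      subst τ (sub r α) = subst (fun v => τ (f v)) α := by
    intro τ α
    rw [subst_sub]
    congr 1
    funext v
    simp [hr, subst]
  constructor
  · rintro ⟨σ, h1, h2, h3⟩
    have hext : ∀ v, Function.extend f σ (fun _ => []) (f v) = σ v := fun v =>
      hf.extend_apply _ _ _
    refine ⟨Function.extend f σ (fun _ => []), ?_, ⟨?_, ?_⟩, ?_, ?_⟩
    · intro x
      rw [← hf0, hext]
      by_cases hx : ∃ v, f v = x
      · obtain ⟨v, rfl⟩ := hx
        rw [hext]
        exact h1 v
      · rw [Function.extend_apply' _ _ _ hx]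
        exact List.nil_infix
    · intro e he
      simp [hφ] at he
    · intro q hq
      simp only [hφ, List.mem_map] at hq
      obtain ⟨p, hp, rfl⟩ := hq
      rw [hext]
      exact h2.2 p hp
    · intro e he
      simp only [hP, List.mem_map] at he
      obtain ⟨p, hp, rfl⟩ := he
      rw [hsub, hsub]
      simp only [hext]
      exact h2.1 p hp
    · rw [← hf0, hext, h3]
  · rintro ⟨τ, h1, h2, h3, h4⟩
    refine ⟨fun v => τ (f v), ?_, ⟨?_, ?_⟩, ?_⟩
    · intro x
      change τ (f x) <:+: τ (f w)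
      rw [hf0]
      exact h1 _
    · intro e he
      have := h3 (sub r e.1, sub r e.2) (by
        rw [hP]
        exact List.mem_map_of_mem he)
      rw [hsub, hsub] at this
      exact this
    · intro p hp
      exact h2.2 (f p.1, p.2) (by
        simp only [hφ]
        exact List.mem_map_of_mem (f := fun p => (f p.1, p.2)) hp)
    · change τ (f w) = u
      rw [hf0]
      exact h4

/-! ### A finite monoid recognising all constraints -/

/-- The words of type `t`. -/
def fib {T : Type} (h : List A → T) (t : T) : Language A := {u | h u = t}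

theorem mem_fib {T : Type} (h : List A → T) (t : T) (u : List A) : u ∈ fib h t ↔ h u = t :=
  Iff.rfl

theorem isRegular_of_hom {T : Type} [Finite T] [Monoid T] (h : List A → T) (h1 : h [] = 1)
    (h2 : ∀ u v, h (u ++ v) = h u * h v) (t : T) : (fib h t).IsRegular := by
  classical
  have := Fintype.ofFinite T
  refine ⟨T, inferInstance, ⟨fun s a => s * h [a], 1, {t}⟩, ?_⟩
  have hev : ∀ (u : List A) (s : T),
      (⟨fun s a => s * h [a], 1, {t}⟩ : DFA A T).evalFrom s u = s * h u := by
    intro u
    induction u with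
    | nil => intro s; simp [h1]
    | cons a u ih =>
      intro s
      have : h (a :: u) = h [a] * h u := by
        rw [← h2]
        rfl
      rw [DFA.evalFrom_cons, ih, this, mul_assoc]
  ext u
  rw [DFA.mem_accepts, DFA.eval, hev, mem_fib]
  simp only [one_mul, Set.mem_singleton_iff]

theorem exists_monoid (regs : List (V × Language A)) (hreg : ∀ r ∈ regs, r.2.IsRegular) :
    ∃ (T : Type) (_ : Finite T) (_ : Monoid T) (h : List A → T), h [] = 1 ∧
      (∀ u v, h (u ++ v) = h u * h v) ∧
      ∀ r ∈ regs, ∀ u v, h u = h v → u ∈ r.2 → v ∈ r.2 := by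
  induction regs with
  | nil =>
    exact ⟨Unit, inferInstance, inferInstance, fun _ => 1, rfl, fun _ _ => rfl, by simp⟩
  | cons r regs ih =>
    obtain ⟨T, hT, hM, h, h1, h2, h3⟩ := ih (fun q hq => hreg q (List.mem_cons_of_mem _ hq))
    obtain ⟨Q, hQ, M, hacc⟩ := hreg r List.mem_cons_self
    let g : List A → (Function.End Q)ᵐᵒᵖ := fun u => MulOpposite.op (fun q => M.evalFrom q u)
    have hfin : Finite (Function.End Q) := inferInstanceAs (Finite (Q → Q))
    have hfin2 : Finite (Function.End Q)ᵐᵒᵖ :=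
      Finite.of_injective MulOpposite.unop MulOpposite.unop_injective
    refine ⟨(Function.End Q)ᵐᵒᵖ × T, inferInstance, inferInstance, fun u => (g u, h u), ?_, ?_, ?_⟩
    · change (g [], h []) = 1
      rw [h1]
      rfl
    · intro u v
      change (g (u ++ v), h (u ++ v)) = (g u * g v, h u * h v)
      rw [h2]
      apply Prod.ext
      · change g (u ++ v) = g u * g v
        apply MulOpposite.unop_injective
        funext q
        change M.evalFrom q (u ++ v) = M.evalFrom (M.evalFrom q u) v
        rw [DFA.evalFrom_of_append]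
      · rfl
    · intro q hq u v huv hu
      rcases List.mem_cons.1 hq with rfl | hq
      · have h4 : g u = g v := congrArg Prod.fst huv
        have h5 : M.evalFrom M.start u = M.evalFrom M.start v :=
          congrFun (congrArg MulOpposite.unop h4) M.start
        rw [← hacc, DFA.mem_accepts, DFA.eval] at hu ⊢
        rwa [← h5]
      · exact h3 q hq u v (congrArg Prod.snd huv) hu

/-! ### From bounded products to safe variables -/

section Pieces

variable [DecidableEq V]

/-- The pattern that replaces the variable `x`. -/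
def rep (w : V) (K : ℕ) (θ : V × Fin K → Option A) (x : V) : Pattern A (Option (V × Fin K)) :=
  if x = w then [Sum.inr none] else
    (List.finRange K).map fun j => (θ (x, j)).elim (Sum.inr (some (x, j))) Sum.inl

theorem rep_self (w : V) (K : ℕ) (θ : V × Fin K → Option A) (τ : Option (V × Fin K) → List A) :
    subst τ (rep w K θ w) = τ none := by
  simp [rep, subst]

theorem subst_rep {w : V} {K : ℕ} (θ : V × Fin K → Option A)
    (τ : Option (V × Fin K) → List A) {x : V} (hx : x ≠ w) :
    subst τ (rep w K θ x) =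
      ((List.finRange K).map fun j => (θ (x, j)).elim (τ (some (x, j))) fun a => [a]).flatten := by
  unfold rep subst
  rw [if_neg hx, List.flatMap_map, List.flatMap_def]
  congr 1
  apply List.map_congr_left
  intro j _
  cases θ (x, j) <;> rfl

/-- The system obtained from a choice of letters and of types. -/
def newSys {T : Type} (w : V) (K : ℕ) (S : Sys A V) (h : List A → T) (els : List (V × Fin K))
    (θ : V × Fin K → Option A) (m : V × Fin K → T) : Sys A (Option (V × Fin K)) where
  eqs := S.eqs.map fun e => (sub (rep w K θ) e.1, sub (rep w K θ) e.2)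
  regs := (els.map fun p => ((some p : Option (V × Fin K)), fib h (m p))) ++
    ((S.regs.filter fun r => decide (r.1 = w)).map fun r => ((none : Option (V × Fin K)), r.2))

theorem newSys_sat {T : Type} (w : V) (K : ℕ) (S : Sys A V) (h : List A → T)
    (els : List (V × Fin K)) (hels : ∀ p, p ∈ els)
    (θ : V × Fin K → Option A) (m : V × Fin K → T) (τ : Option (V × Fin K) → List A) :
    (newSys w K S h els θ m).Sat τ ↔
      (∀ e ∈ S.eqs, subst (fun x => subst τ (rep w K θ x)) e.1 =
        subst (fun x => subst τ (rep w K θ x)) e.2) ∧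
      (∀ p, h (τ (some p)) = m p) ∧ (∀ r ∈ S.regs, r.1 = w → τ none ∈ r.2) := by
  constructor
  · rintro ⟨h1, h2⟩
    refine ⟨?_, ?_, ?_⟩
    · intro e he
      have := h1 (sub (rep w K θ) e.1, sub (rep w K θ) e.2) (by
        unfold newSys
        exact List.mem_map_of_mem (f := fun e => (sub (rep w K θ) e.1, sub (rep w K θ) e.2)) he)
      rwa [subst_sub, subst_sub] at this
    · intro p
      exact h2 (some p, fib h (m p)) (List.mem_append.2 (Or.inl
        (List.mem_map_of_mem (f := fun p => ((some p : Option (V × Fin K)),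
          fib h (m p))) (hels p))))
    · intro r hr hw
      exact h2 (none, r.2) (List.mem_append.2 (Or.inr
        (List.mem_map_of_mem (f := fun r => ((none : Option (V × Fin K)), r.2))
          (List.mem_filter.2 ⟨hr, by simpa using hw⟩))))
  · rintro ⟨h1, h2, h3⟩
    constructor
    · intro e he
      unfold newSys at he
      simp only [List.mem_map] at he
      obtain ⟨e', he', rfl⟩ := he
      rw [subst_sub, subst_sub]
      exact h1 e' he'
    · intro r hr
      unfold newSys at hr
      rcases List.mem_append.1 hr with hr | hr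
      · obtain ⟨p, _, rfl⟩ := List.mem_map.1 hr
        exact h2 p
      · obtain ⟨q, hq, rfl⟩ := List.mem_map.1 hr
        obtain ⟨hq1, hq2⟩ := List.mem_filter.1 hq
        exact h3 q hq1 (by simpa using hq2)

/-- The constraints on the variables other than `w` hold for all words of the given types. -/
def GoodChoice {T : Type} (w : V) (K : ℕ) (S : Sys A V) (h : List A → T)
    (θ : V × Fin K → Option A) (m : V × Fin K → T) : Prop :=
  ∀ r ∈ S.regs, r.1 ≠ w → ∀ τ : Option (V × Fin K) → List A, (∀ p, h (τ (some p)) = m p) →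
    subst τ (rep w K θ r.1) ∈ r.2

theorem hom_flatten {T : Type} [Monoid T] (h : List A → T) (_h1 : h [] = 1)
    (h2 : ∀ u v, h (u ++ v) = h u * h v) {ι : Type} (l : List ι) (f g : ι → List A)
    (hfg : ∀ i, h (f i) = h (g i)) : h (l.map f).flatten = h (l.map g).flatten := by
  induction l with
  | nil => rfl
  | cons i l ih =>
    simp only [List.map_cons, List.flatten_cons]
    rw [h2, h2, hfg, ih]

theorem key_iff {T : Type} [Monoid T] (w : V) (K : ℕ) (S : Sys A V) (h : List A → T)
    (h1 : h [] = 1) (h2 : ∀ u v, h (u ++ v) = h u * h v)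
    (h3 : ∀ r ∈ S.regs, ∀ u v, h u = h v → u ∈ r.2 → v ∈ r.2)
    (els : List (V × Fin K)) (hels : ∀ p, p ∈ els)
    (hK : ∀ σ, S.Sat σ → ∃ σ', S.Sat σ' ∧ σ' w = σ w ∧ ∀ x, BProd (σ w) K (σ' x))
    (u : List A) :
    (∃ σ : V → List A, S.Sat σ ∧ σ w = u) ↔
      ∃ (θ : V × Fin K → Option A) (m : V × Fin K → T), GoodChoice w K S h θ m ∧
        ∃ τ : Option (V × Fin K) → List A, (∀ x, τ x <:+: τ none) ∧
          (newSys w K S h els θ m).Sat τ ∧ τ none = u := by
  constructor
  · rintro ⟨σ, hσ, rfl⟩
    obtain ⟨σ', hσ', hw, hB⟩ := hK σ hσ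
    have hpieces : ∀ x, ∃ f : Fin K → List A, (∀ j, f j <:+: σ w ∨ (f j).length ≤ 1) ∧
        σ' x = ((List.finRange K).map f).flatten := by
      intro x
      obtain ⟨l, hl, hl2, hl3⟩ := hB x
      refine ⟨fun j => (l ++ List.replicate (K - l.length) []).get
        ⟨j, by simp; omega⟩, ?_, ?_⟩
      · intro j
        have hmem := List.get_mem (l ++ List.replicate (K - l.length) []) ⟨j, by simp; omega⟩
        rcases List.mem_append.1 hmem with hm | hm
        · exact hl2 _ hm
        · rw [List.mem_replicate] at hm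
          right
          change ((l ++ List.replicate (K - l.length) []).get ⟨j, by simp; omega⟩).length ≤ 1
          rw [hm.2]
          simp
      · have hlen : (l ++ List.replicate (K - l.length) ([] : List A)).length = K := by
          simp
          omega
        have : (List.finRange K).map (fun j : Fin K =>
            (l ++ List.replicate (K - l.length) []).get ⟨j, by simp; omega⟩) =
            l ++ List.replicate (K - l.length) [] := by
          apply List.ext_getElem
          · simp
            omega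
          · intro i hi1 hi2
            simp
        rw [this, hl3]
        simp
    choose f hf1 hf2 using hpieces
    have hchoice : ∀ p : V × Fin K, ∃ (o : Option A) (t : List A), t <:+: σ w ∧
        o.elim t (fun a => [a]) = f p.1 p.2 := by
      rintro ⟨x, j⟩
      by_cases hin : f x j <:+: σ w
      · exact ⟨none, f x j, hin, rfl⟩
      · rcases hf1 x j with hj | hj
        · exact absurd hj hin
        · match hfx : f x j with
          | [] =>
            rw [hfx] at hin
            exact absurd List.nil_infix hin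
          | [a] => exact ⟨some a, [], List.nil_infix, rfl⟩
          | a :: b :: t =>
            rw [hfx] at hj
            simp at hj
    choose θ t ht1 ht2 using hchoice
    let τ : Option (V × Fin K) → List A := fun o => o.elim (σ w) t
    have hrep : ∀ x, subst τ (rep w K θ x) = σ' x := by
      intro x
      by_cases hx : x = w
      · subst hx
        rw [rep_self, hw]
        rfl
      · rw [subst_rep θ τ hx, hf2 x]
        congr 1
        apply List.map_congr_left
        intro j _
        exact ht2 (x, j)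
    refine ⟨θ, fun p => h (t p), ?_, τ, ?_, ?_, rfl⟩
    · intro r hr hrw τ' hτ'
      have hmem : subst τ (rep w K θ r.1) ∈ r.2 := by
        rw [hrep]
        exact hσ'.2 r hr
      refine h3 r hr _ _ ?_ hmem
      rw [subst_rep θ τ hrw, subst_rep θ τ' hrw]
      apply hom_flatten h h1 h2
      intro j
      cases hθ : θ (r.1, j) with
      | none => exact (hτ' (r.1, j)).symm
      | some a => rfl
    · intro x
      cases x with
      | none => exact List.infix_rfl
      | some p => exact ht1 p
    · rw [newSys_sat w K S h els hels]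
      refine ⟨?_, fun p => rfl, ?_⟩
      · intro e he
        simp only [hrep]
        exact hσ'.1 e he
      · rintro r hr rfl
        have := hσ'.2 r hr
        rw [hw] at this
        exact this
  · rintro ⟨θ, m, hgood, τ, hsafe, hsat, rfl⟩
    rw [newSys_sat w K S h els hels] at hsat
    obtain ⟨s1, s2, s3⟩ := hsat
    refine ⟨fun x => subst τ (rep w K θ x), ⟨s1, ?_⟩, rep_self w K θ τ⟩
    intro r hr
    by_cases hrw : r.1 = w
    · change subst τ (rep w K θ r.1) ∈ r.2
      rw [hrw, rep_self]
      exact s3 r hr hrw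
    · exact hgood r hr hrw τ s2

end Pieces

theorem sysToUnion (hB : BoundedStatement) : SysToUnionStatement := by
  intro A _ V _ w S hS
  classical
  obtain ⟨K, hK⟩ := hB A V w S hS
  obtain ⟨T, hT, hM, h, h1, h2, h3⟩ := exists_monoid S.regs hS
  have hTF := Fintype.ofFinite T
  have hVF := Fintype.ofFinite V
  let els : List (V × Fin K) := (Finset.univ : Finset (V × Fin K)).toList
  have hels : ∀ p, p ∈ els := fun p => by simp [els]
  have hreg : ∀ θ m, (newSys w K S h els θ m).Reg := by
    intro θ m r hr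
    unfold newSys at hr
    rcases List.mem_append.1 hr with hr | hr
    · obtain ⟨p, _, rfl⟩ := List.mem_map.1 hr
      exact isRegular_of_hom h h1 h2 (m p)
    · obtain ⟨q, hq, rfl⟩ := List.mem_map.1 hr
      exact hS q (List.mem_filter.1 hq).1
  have hlev := fun c : (V × Fin K → Option A) × (V × Fin K → T) =>
    levi A (Option (V × Fin K)) none (newSys w K S h els c.1 c.2) (hreg c.1 c.2)
  choose L hL1 hL2 using hlev
  let cs : List ((V × Fin K → Option A) × (V × Fin K → T)) :=
    ((Finset.univ : Finset ((V × Fin K → Option A) × (V × Fin K → T))).filter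
      fun c => GoodChoice w K S h c.1 c.2).toList
  refine ⟨cs.flatMap L, ?_, fun u => ?_⟩
  · intro φ hφ
    obtain ⟨c, _, hc⟩ := List.mem_flatMap.1 hφ
    exact hL1 c φ hc
  · rw [key_iff w K S h h1 h2 h3 els hels hK u]
    constructor
    · rintro ⟨θ, m, hgood, hτ⟩
      obtain ⟨φ, hφ, hu⟩ := (hL2 (θ, m) u).1 hτ
      exact ⟨φ, List.mem_flatMap.2 ⟨(θ, m), by simp [cs, hgood], hφ⟩, hu⟩
    · rintro ⟨φ, hφ, hu⟩
      obtain ⟨c, hc, hφc⟩ := List.mem_flatMap.1 hφ
      have hgood : GoodChoice w K S h c.1 c.2 := by simpa [cs] using hc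
      exact ⟨c.1, c.2, hgood, (hL2 c u).2 ⟨φ, hφc, hu⟩⟩

end Pool.Agent.Helper45.FCLevi
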