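import Mathlib
import Pool.Agent.Compl.Defs

/-! # Separability of the compact operators on `ℓ²`, and the algebra part of the
non-complementation theorem -/

set_option autoImplicit false

namespace Pool.Agent.Helper45.KCD

open Pool.Agent.Compl Filter Topology TopologicalSpace
open scoped ComplexConjugate BigOperators

/-- The projection onto the first `N` coordinates. -/
noncomputable def PN (N : ℕ) : BL :=
  ∑ k ∈ Finset.range N, (lp.evalCLM ℂ (fun _ : ℕ => ℂ) 2 k).smulRight (dl k)

theorem PN_apply (N : ℕ) (x : L2) :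
    PN N x = ∑ k ∈ Finset.range N, lp.single 2 k (x k) := by
  unfold PN
  rw [_root_.sum_apply]
  apply Finset.sum_congr rfl
  intro k _
  rw [ContinuousLinearMap.smulRight_apply]
  unfold dl
  have h : (lp.evalCLM ℂ (fun _ : ℕ => ℂ) 2 k) x = x k := rfl
  rw [h, ← lp.single_smul]
  simp

theorem PN_tendsto (x : L2) : Tendsto (fun N => PN N x) atTop (𝓝 x) := by
  simp_rw [PN_apply]
  exact (lp.hasSum_single (by norm_num) x).tendsto_sum_nat

theorem PN_norm (N : ℕ) (x : L2) : ‖PN N x‖ ≤ ‖x‖ := by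
  rw [PN_apply]
  have h1 := lp.norm_sum_single (E := fun _ : ℕ => ℂ) (p := 2) (by norm_num) (fun k => x k)
    (Finset.range N)
  have h2 := lp.sum_rpow_le_norm_rpow (p := 2) (by norm_num) x (Finset.range N)
  rw [← h1] at h2
  exact (Real.rpow_le_rpow_iff (norm_nonneg _) (norm_nonneg _) (by norm_num)).1 h2

theorem PN_compact (N : ℕ) : IsCompactOperator (⇑(PN N)) := by
  unfold PN
  induction N with
  | zero =>
    simp only [Finset.range_zero, Finset.sum_empty]
    exact isCompactOperator_zero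
  | succ N ih =>
    rw [Finset.sum_range_succ]
    apply IsCompactOperator.add ih
    have h : IsCompactOperator (⇑(lp.evalCLM ℂ (fun _ : ℕ => ℂ) 2 N)) :=
      isCompactOperator_of_locallyCompactSpace_dom (lp.evalCLM ℂ (fun _ : ℕ => ℂ) 2 N)
    exact h.clm_comp ((ContinuousLinearMap.id ℂ ℂ).smulRight (dl N))

theorem PN_comp_tendsto (T : BL) (hT : IsCompactOperator (⇑T)) :
    Tendsto (fun N => PN N * T) atTop (𝓝 T) := by
  rw [Metric.tendsto_atTop]
  intro ε hε
  obtain ⟨K, hK, hKs⟩ := hT.image_closedBall_subset_compact (f := (T : L2 →ₗ[ℂ] L2)) 1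
  obtain ⟨t, htK, htf, hcov⟩ := hK.finite_cover_balls (e := ε / 4) (by positivity)
  have hev : ∀ᶠ N in atTop, ∀ y ∈ t, ‖PN N y - y‖ < ε / 4 := by
    rw [Filter.eventually_all_finite htf]
    intro y _
    have := PN_tendsto y
    rw [Metric.tendsto_atTop] at this
    obtain ⟨N0, hN0⟩ := this (ε / 4) (by positivity)
    filter_upwards [eventually_ge_atTop N0] with N hN
    rw [← dist_eq_norm]
    exact hN0 N hN
  obtain ⟨N0, hN0⟩ := eventually_atTop.1 hev
  refine ⟨N0, fun N hN => ?_⟩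
  rw [dist_eq_norm]
  have hbd : ‖PN N * T - T‖ ≤ 3 * (ε / 4) := by
    apply ContinuousLinearMap.opNorm_le_of_unit_norm (by positivity)
    intro x hx
    have hTx : T x ∈ K := hKs ⟨x, by simp [hx], rfl⟩
    have := hcov hTx
    simp only [Set.mem_iUnion, Metric.mem_ball, exists_prop] at this
    obtain ⟨y, hy, hyd⟩ := this
    rw [dist_eq_norm] at hyd
    have h1 := hN0 N hN y hy
    have h2 := PN_norm N (T x - y)
    have h3 : (PN N * T - T) x = PN N (T x - y) + (PN N y - y) - (T x - y) := by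
      simp only [_root_.sub_apply, _root_.mul_apply_eq_comp, map_sub]
      abel
    rw [h3]
    calc ‖PN N (T x - y) + (PN N y - y) - (T x - y)‖
        ≤ ‖PN N (T x - y) + (PN N y - y)‖ + ‖T x - y‖ := norm_sub_le _ _
      _ ≤ ‖PN N (T x - y)‖ + ‖PN N y - y‖ + ‖T x - y‖ := by gcongr; exact norm_add_le _ _
      _ ≤ 3 * (ε / 4) := by linarith
  linarith

theorem PN_selfAdjoint (N : ℕ) : star (PN N) = PN N := by
  have h : IsSelfAdjoint (PN N) := by
    rw [ContinuousLinearMap.isSelfAdjoint_iff_isSymmetric]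
    intro x y
    change inner ℂ (PN N x) y = inner ℂ x (PN N y)
    rw [PN_apply, PN_apply, sum_inner, inner_sum]
    apply Finset.sum_congr rfl
    intro k _
    rw [lp.inner_single_left, lp.inner_single_right]
  exact h

theorem compact_star (T : BL) (hT : IsCompactOperator (⇑T)) :
    IsCompactOperator (⇑(star T)) := by
  have h1 : Tendsto (fun N => star (PN N * T)) atTop (𝓝 (star T)) :=
    (continuous_star.tendsto T).comp (PN_comp_tendsto T hT)
  refine isCompactOperator_of_tendsto h1 (Eventually.of_forall fun N => ?_)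
  rw [star_mul, PN_selfAdjoint]
  exact (PN_compact N).clm_comp (star T)

theorem separable_L2 : IsSeparable (Set.univ : Set L2) := by
  have h : (Set.univ : Set L2) ⊆ closure (Submodule.span ℂ (Set.range dl) : Set L2) := by
    intro x _
    refine mem_closure_of_tendsto (PN_tendsto x) (Eventually.of_forall fun N => ?_)
    rw [PN_apply]
    apply Submodule.sum_mem
    intro k _
    have : (lp.single 2 k (x k) : L2) = (x k) • dl k := by
      unfold dl
      rw [← lp.single_smul]
      simp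
    rw [this]
    exact Submodule.smul_mem _ _ (Submodule.subset_span ⟨k, rfl⟩)
  exact ((Set.countable_range dl).isSeparable.span (R := ℂ)).closure.mono h

theorem separable_compacts : IsSeparable {T : BL | IsCompactOperator (⇑T)} := by
  have : SeparableSpace L2 := by
    have := separable_L2
    rwa [isSeparable_univ_iff] at this
  let G : Set BL := ⋃ k : ℕ, Set.range (fun x : L2 =>
    (InnerProductSpace.toDual ℂ L2 x).smulRight (dl k))
  have hG : IsSeparable G := by
    apply IsSeparable.iUnion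
    intro k
    apply isSeparable_range
    have h1 : Continuous (fun x : L2 => InnerProductSpace.toDual ℂ L2 x) :=
      (InnerProductSpace.toDual ℂ L2).continuous
    have h2 : Continuous (fun f : StrongDual ℂ L2 => f.smulRight (dl k)) :=
      ((ContinuousLinearMap.smulRightL ℂ L2 L2).flip (dl k)).continuous
    exact h2.comp h1
  have h : {T : BL | IsCompactOperator (⇑T)} ⊆ closure (Submodule.span ℂ G : Set BL) := by
    intro T hT
    refine mem_closure_of_tendsto (PN_comp_tendsto T hT) (Eventually.of_forall fun N => ?_)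
    unfold PN
    rw [Finset.sum_mul]
    apply Submodule.sum_mem
    intro k _
    apply Submodule.subset_span
    refine Set.mem_iUnion.2 ⟨k, ?_⟩
    refine ⟨(InnerProductSpace.toDual ℂ L2).symm ((lp.evalCLM ℂ (fun _ : ℕ => ℂ) 2 k).comp T), ?_⟩
    simp only [LinearIsometryEquiv.apply_symm_apply]
    rfl
  exact (hG.span (R := ℂ)).closure.mono h

theorem countable_closure {M : Type*} [Monoid M] {s : Set M} (hs : s.Countable) :
    (Submonoid.closure s : Set M).Countable := by
  have := hs.to_subtype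
  rw [Submonoid.closure_eq_mrange, MonoidHom.coe_mrange]
  exact Set.countable_range _

theorem algebra_part (S : Set BL) (hS : S.Countable) :
    ∃ A : StarSubalgebra ℂ BL, IsClosed (A : Set BL) ∧ TopologicalSpace.IsSeparable (A : Set BL) ∧
      (∀ T : BL, IsCompactOperator (⇑T) → T ∈ A) ∧ S ⊆ (A : Set BL) := by
  obtain ⟨K0, hK0, hK⟩ := separable_compacts
  set G : Set BL := K0 ∪ S with hG
  have hGc : G.Countable := hK0.union hS
  refine ⟨(StarAlgebra.adjoin ℂ G).topologicalClosure,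
    StarSubalgebra.isClosed_topologicalClosure _, ?_, ?_, ?_⟩
  · rw [StarSubalgebra.topologicalClosure_coe]
    apply IsSeparable.closure
    have h1 : ((StarAlgebra.adjoin ℂ G : StarSubalgebra ℂ BL) : Set BL) =
        (Submodule.span ℂ (Submonoid.closure (G ∪ star G) : Set BL) : Set BL) := by
      rw [← Algebra.adjoin_eq_span, ← StarAlgebra.adjoin_toSubalgebra]
      rfl
    rw [h1]
    apply IsSeparable.span
    apply Set.Countable.isSeparable
    apply countable_closure
    apply hGc.union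
    have : star G = star '' G := by
      rw [Set.image_star]
    rw [this]
    exact hGc.image _
  · intro T hT
    have h1 : T ∈ closure K0 := hK hT
    have h2 : K0 ⊆ ((StarAlgebra.adjoin ℂ G : StarSubalgebra ℂ BL) : Set BL) :=
      Set.subset_union_left.trans (StarAlgebra.subset_adjoin ℂ G)
    exact closure_mono h2 h1
  · exact (Set.subset_union_right.trans (StarAlgebra.subset_adjoin ℂ G)).trans
      (StarSubalgebra.le_topologicalClosure _)

theorem of_main
    (hmain : ∀ (A : Type) [NonUnitalCStarAlgebra A] [TopologicalSpace.SeparableSpace A]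
      (φ : (lp (fun _ : ℕ => ℂ) 2 →L[ℂ] lp (fun _ : ℕ => ℂ) 2) →ₗ[ℂ] A),
      (∀ x y : lp (fun _ : ℕ => ℂ) 2 →L[ℂ] lp (fun _ : ℕ => ℂ) 2,
        IsCompactOperator (⇑x) → IsCompactOperator (⇑y) → φ (x * y) = φ x * φ y) →
      (∀ x : lp (fun _ : ℕ => ℂ) 2 →L[ℂ] lp (fun _ : ℕ => ℂ) 2,
        IsCompactOperator (⇑x) → φ (star x) = star (φ x)) →
      (∀ x : lp (fun _ : ℕ => ℂ) 2 →L[ℂ] lp (fun _ : ℕ => ℂ) 2,
        IsCompactOperator (⇑x) → φ x = 0 → x = 0) →
      (∀ (a : A) (x : lp (fun _ : ℕ => ℂ) 2 →L[ℂ] lp (fun _ : ℕ => ℂ) 2),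
        IsCompactOperator (⇑x) →
          (∃ y : lp (fun _ : ℕ => ℂ) 2 →L[ℂ] lp (fun _ : ℕ => ℂ) 2,
              IsCompactOperator (⇑y) ∧ a * φ x = φ y) ∧
          (∃ z : lp (fun _ : ℕ => ℂ) 2 →L[ℂ] lp (fun _ : ℕ => ℂ) 2,
              IsCompactOperator (⇑z) ∧ φ x * a = φ z)) →
      ∃ P : A →L[ℂ] A,
        (∀ a : A, ∃ x : lp (fun _ : ℕ => ℂ) 2 →L[ℂ] lp (fun _ : ℕ => ℂ) 2,
            IsCompactOperator (⇑x) ∧ P a = φ x) ∧
        (∀ x : lp (fun _ : ℕ => ℂ) 2 →L[ℂ] lp (fun _ : ℕ => ℂ) 2,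
            IsCompactOperator (⇑x) → P (φ x) = φ x))
    (S : Set BL) (hS : S.Countable) :
    ∃ (P : BL →ₗ[ℂ] BL) (K : ℝ), 0 ≤ K ∧ (∀ T ∈ S, IsCompactOperator (⇑(P T)) ∧ ‖P T‖ ≤ K * ‖T‖) ∧
      (∀ T : BL, IsCompactOperator (⇑T) → P T = T) := by
  obtain ⟨A, hAc, hAs, hAK, hAS⟩ := algebra_part S hS
  have hAc' : IsClosed (A : Set BL) := hAc
  letI inst : CStarAlgebra A := StarSubalgebra.cstarAlgebra A
  have hsep : SeparableSpace A := hAs.separableSpace
  let Kc : Submodule ℂ BL := compactOperator (RingHom.id ℂ) L2 L2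
  let f : Kc →ₗ[ℂ] A :=
    { toFun := fun x => ⟨x.1, hAK x.1 x.2⟩
      map_add' := fun x y => rfl
      map_smul' := fun c x => rfl }
  obtain ⟨φ, hφ⟩ := LinearMap.exists_extend f
  have hφ' : ∀ x : BL, (hx : IsCompactOperator (⇑x)) → φ x = ⟨x, hAK x hx⟩ := by
    intro x hx
    have := LinearMap.congr_fun hφ (⟨x, hx⟩ : Kc)
    exact this
  have m1 : ∀ x y : BL, IsCompactOperator (⇑x) → IsCompactOperator (⇑y) →
      φ (x * y) = φ x * φ y := by
    intro x y hx hy
    rw [hφ' x hx, hφ' y hy, hφ' (x * y) (hx.comp_clm y)]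
    rfl
  have m2 : ∀ x : BL, IsCompactOperator (⇑x) → φ (star x) = star (φ x) := by
    intro x hx
    rw [hφ' x hx, hφ' (star x) (compact_star x hx)]
    rfl
  have m3 : ∀ x : BL, IsCompactOperator (⇑x) → φ x = 0 → x = 0 := by
    intro x hx h0
    rw [hφ' x hx] at h0
    exact congrArg Subtype.val h0
  have m4 : ∀ (a : A) (x : BL), IsCompactOperator (⇑x) →
      (∃ y : BL, IsCompactOperator (⇑y) ∧ a * φ x = φ y) ∧
      (∃ z : BL, IsCompactOperator (⇑z) ∧ φ x * a = φ z) := by
    intro a x hx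
    rw [hφ' x hx]
    constructor
    · refine ⟨a.1 * x, hx.clm_comp a.1, ?_⟩
      rw [hφ' (a.1 * x) (hx.clm_comp a.1)]
      rfl
    · refine ⟨x * a.1, hx.comp_clm a.1, ?_⟩
      rw [hφ' (x * a.1) (hx.comp_clm a.1)]
      rfl
  obtain ⟨P, hP1, hP2⟩ := hmain A φ m1 m2 m3 m4
  let g : (Subalgebra.toSubmodule A.toSubalgebra) →ₗ[ℂ] BL :=
    { toFun := fun x => (P ⟨x.1, x.2⟩ : A)
      map_add' := fun x y => by
        have h : (⟨(x + y).1, (x + y).2⟩ : A) = (⟨x.1, x.2⟩ : A) + ⟨y.1, y.2⟩ := rfl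
        rw [h, map_add]
        rfl
      map_smul' := fun c x => by
        have h : (⟨(c • x).1, (c • x).2⟩ : A) = c • (⟨x.1, x.2⟩ : A) := rfl
        rw [h, map_smul]
        rfl }
  obtain ⟨Q, hQ⟩ := LinearMap.exists_extend g
  have hQ' : ∀ (x : BL) (hx : x ∈ A), Q x = (P ⟨x, hx⟩ : A) := by
    intro x hx
    exact LinearMap.congr_fun hQ (⟨x, hx⟩ : Subalgebra.toSubmodule A.toSubalgebra)
  refine ⟨Q, ‖P‖, norm_nonneg _, ?_, ?_⟩
  · intro T hT
    have hTA : T ∈ A := hAS hT
    rw [hQ' T hTA]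
    constructor
    · obtain ⟨x, hx, hPx⟩ := hP1 ⟨T, hTA⟩
      rw [hPx, hφ' x hx]
      exact hx
    · exact P.le_opNorm ⟨T, hTA⟩
  · intro T hT
    have hTA : T ∈ A := hAK T hT
    rw [hQ' T hTA]
    have := hP2 T hT
    rw [hφ' T hT] at this
    rw [this]

end Pool.Agent.Helper45.KCD
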